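import Mathlib

/-!
Counting the level functions compatible with a descent pattern.
-/

set_option autoImplicit false

namespace Pool.Agent.Q252.GamB

open Finset

theorem strict_gap {n : ℕ} (e : Fin n → ℕ) (he : StrictMono e) (d : ℕ) :
    ∀ i j : Fin n, (j : ℕ) = i + d → e i + d ≤ e j := by
  induction d with
  | zero =>
    intro i j h
    have : i = j := Fin.ext (by omega)
    rw [this]
    omega
  | succ d ih =>
    intro i j h
    have hlt : (i : ℕ) + d < n := by have := j.2; omega
    have h1 := ih i ⟨i + d, hlt⟩ rfl
    have h2 : e ⟨i + d, hlt⟩ < e j := he (by rw [Fin.lt_def]; simp only; omega)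
    omega

/-- level functions compatible with the partial sums `Δ` -/
def Cmp (n k : ℕ) (Δ : Fin n → ℕ) : Finset (Fin n → ℕ) :=
  (Fintype.piFinset fun _ : Fin n => range (k + 1)).filter
    (fun f => (∀ i, Δ i ≤ f i) ∧ ∀ i j, i ≤ j → f i + Δ j ≤ f j + Δ i)

theorem mem_Cmp {n k : ℕ} {Δ : Fin n → ℕ} {f : Fin n → ℕ} : f ∈ Cmp n k Δ ↔
    (∀ i, f i ≤ k) ∧ (∀ i, Δ i ≤ f i) ∧ ∀ i j, i ≤ j → f i + Δ j ≤ f j + Δ i := by
  unfold Cmp
  rw [mem_filter, Fintype.mem_piFinset]
  simp only [mem_range, Nat.lt_succ_iff]

theorem card_Cmp (n k : ℕ) (δ : Fin n → ℕ) :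
    #(Cmp n k (fun i => ∑ j ∈ Iic i, δ j)) = (n + k - ∑ j, δ j).choose n := by
  set Δ : Fin n → ℕ := fun i => ∑ j ∈ Iic i, δ j with hΔ
  set d := ∑ j, δ j with hd
  have hmono : ∀ i j, i ≤ j → Δ i ≤ Δ j := by
    intro i j h
    exact sum_le_sum_of_subset (Iic_subset_Iic.2 h)
  have hle : ∀ i, Δ i ≤ d := fun i => sum_le_sum_of_subset (subset_univ _)
  have hlast : ∀ i : Fin n, (i : ℕ) + 1 = n → Δ i = d := by
    intro i hi
    rw [hΔ, hd]
    simp only
    congr 1
    ext j
    simp only [mem_Iic, mem_univ, iff_true, Fin.le_def]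
    have := j.2
    omega
  rw [← card_range (n + k - d), ← card_powersetCard]
  apply card_nbij (fun f => univ.image (fun i : Fin n => f i - Δ i + i))
  · -- maps to
    intro f hf
    rw [mem_coe, mem_Cmp] at hf
    obtain ⟨h1, h2, h3⟩ := hf
    have hs : StrictMono (fun i : Fin n => f i - Δ i + i) := by
      intro i j hij
      have := h3 i j hij.le
      have := h2 i
      have := h2 j
      have : (i : ℕ) < j := hij
      simp only
      omega
    rw [mem_coe, mem_powersetCard]
    constructor
    · intro x hx
      rw [mem_image] at hx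
      obtain ⟨i, _, rfl⟩ := hx
      rw [mem_range]
      have hn : 0 < n := by have := i.2; omega
      have h4 := h3 i ⟨n - 1, by omega⟩ (by rw [Fin.le_def]; simp only; have := i.2; omega)
      have h5 := hlast ⟨n - 1, by omega⟩ (by simp only; omega)
      have h6 := h1 ⟨n - 1, by omega⟩
      have h7 := h2 ⟨n - 1, by omega⟩
      have h8 := h2 i
      have := i.2
      omega
    · rw [card_image_of_injective _ hs.injective, card_univ, Fintype.card_fin]
  · intro f hf g hg hfg
    rw [mem_coe, mem_Cmp] at hf hg
    have hs : ∀ f : Fin n → ℕ, (∀ i, Δ i ≤ f i) → (∀ i j, i ≤ j → f i + Δ j ≤ f j + Δ i) →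
        StrictMono (fun i : Fin n => f i - Δ i + i) := by
      intro f h2 h3 i j hij
      have := h3 i j hij.le
      have := h2 i
      have := h2 j
      have : (i : ℕ) < j := hij
      simp only
      omega
    have sf := hs f hf.2.1 hf.2.2
    have sg := hs g hg.2.1 hg.2.2
    have hc : #(univ.image (fun i : Fin n => f i - Δ i + i)) = n := by
      rw [card_image_of_injective _ sf.injective, card_univ, Fintype.card_fin]
    have e1 := orderEmbOfFin_unique hc (f := fun i : Fin n => f i - Δ i + i)
      (fun x => mem_image_of_mem _ (mem_univ x)) sf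
    have e2 := orderEmbOfFin_unique hc (f := fun i : Fin n => g i - Δ i + i)
      (fun x => by
        have h := hfg
        simp only at h
        rw [h]
        exact mem_image_of_mem (fun i : Fin n => g i - Δ i + i) (mem_univ x)) sg
    funext i
    have e3 := congrFun (e1.trans e2.symm) i

    have := hf.2.1 i
    have := hg.2.1 i
    omega
  · intro t ht
    rw [mem_coe, mem_powersetCard] at ht
    obtain ⟨ht1, ht2⟩ := ht
    set e := t.orderEmbOfFin ht2 with he
    have es : StrictMono (fun i => e i) := e.strictMono
    have hge : ∀ i : Fin n, (i : ℕ) ≤ e i := by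
      intro i
      have hn : 0 < n := by have := i.2; omega
      have := strict_gap (fun i => e i) es i ⟨0, hn⟩ i (by simp)
      omega
    have hup : ∀ i : Fin n, e i + (n - 1 - i) < n + k - d := by
      intro i
      have hn : 0 < n := by have := i.2; omega
      have h1 := strict_gap (fun i => e i) es (n - 1 - i) i ⟨n - 1, by omega⟩
        (by simp only; have := i.2; omega)
      have h2 := ht1 (orderEmbOfFin_mem t ht2 ⟨n - 1, by omega⟩)
      rw [mem_range] at h2
      have h3 : t.orderEmbOfFin ht2 ⟨n - 1, by omega⟩ = e ⟨n - 1, by omega⟩ := rfl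
      rw [h3] at h2
--       simp only at h1
      omega
    refine ⟨fun i => e i - i + Δ i, ?_, ?_⟩
    · rw [mem_coe, mem_Cmp]
      refine ⟨fun i => ?_, fun i => by omega, fun i j hij => ?_⟩
      · have h1 := hup i
        have h2 := hge i
        have h3 := hle i
        have h4 := i.2

        omega
      · have h1 := hge i
        have h2 := hge j
        have h3 := strict_gap (fun i => e i) es (j - i) i j (by have : (i : ℕ) ≤ j := hij; omega)
        have h4 : (i : ℕ) ≤ j := hij

        omega
    · ext x
      rw [mem_image]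
      constructor
      · rintro ⟨i, _, rfl⟩
        have h1 := hge i
        have h2 : e i - i + Δ i - Δ i + i = e i := by omega
        simp only
        rw [h2]
        exact orderEmbOfFin_mem t ht2 i
      · intro hx
        have h1 : x ∈ Set.range (t.orderEmbOfFin ht2) := by
          rw [range_orderEmbOfFin]; exact hx
        obtain ⟨i, hi⟩ := h1
        refine ⟨i, mem_univ _, ?_⟩
        have h2 := hge i
        have h3 : e i = x := hi
        simp only
        omega

end Pool.Agent.Q252.GamB
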