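import Pool.Agent.Q252.GamB.Ser

/-!
From the gamma polynomials to the gamma expansion with natural coefficients.
-/

set_option autoImplicit false

namespace Pool.Agent.Q252.GamB

open Polynomial

theorem expand (n : ℕ) : S ^ n * aeval Y (G n) =
    ((∑ i ∈ Finset.range (n / 2 + 1), C (c n i) * (X ^ i * (1 + X) ^ (n - 2 * i)) : ℚ[X]) :
      PowerSeries ℚ) := by
  have hd : (G n).natDegree < n / 2 + 1 := by
    rw [Nat.lt_succ_iff, natDegree_le_iff_coeff_eq_zero]
    intro m hm
    exact (main n m).2 (by omega)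
  rw [aeval_eq_sum_range' hd, Finset.mul_sum]
  rw [← Polynomial.coeToPowerSeries.ringHom_apply, map_sum]
  apply Finset.sum_congr rfl
  intro i hi
  have hi' : 2 * i ≤ n := by
    have := Finset.mem_range.1 hi
    omega
  have h1 : Y ^ i * S ^ (2 * i) = PowerSeries.X ^ i := by
    rw [pow_mul, ← mul_pow, Y_S]
  have h2 : S ^ n = S ^ (2 * i) * S ^ (n - 2 * i) := by
    rw [← pow_add]; congr 1; omega
  rw [Polynomial.coeToPowerSeries.ringHom_apply]
  push_cast
  rw [h2, Algebra.smul_def]
  have h3 : (algebraMap ℚ (PowerSeries ℚ)) ((G n).coeff i) = PowerSeries.C (c n i) := rfl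
  rw [h3, ← S_def]
  linear_combination (PowerSeries.C (c n i) * S ^ (n - 2 * i)) * h1

theorem integral (n m : ℕ) (g : ℕ → ℚ) (p : ℤ[X])
    (h : p.map (Int.castRingHom ℚ) = ∑ i ∈ Finset.range m, C (g i) * (X ^ i * (1 + X) ^ (n - 2 * i)))
    (k : ℕ) (hk : k < m) : ∃ z : ℤ, g k = z := by
  induction k using Nat.strong_induction_on with
  | _ k ih =>
    have h1 := congrArg (fun q => coeff q k) h
    simp only [coeff_map, finset_sum_coeff, coeff_C_mul] at h1
    have h2 : ∀ i, (X ^ i * (1 + X : ℚ[X]) ^ (n - 2 * i)).coeff k =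
        if i ≤ k then (((n - 2 * i).choose (k - i) : ℕ) : ℚ) else 0 := by
      intro i
      rw [coeff_X_pow_mul']
      split_ifs with hik
      · rw [coeff_one_add_X_pow]
      · rfl
    simp only [h2] at h1
    rw [← Finset.sum_erase_add _ _ (Finset.mem_range.2 hk)] at h1
    have h3 : ∃ z : ℤ, ∑ i ∈ (Finset.range m).erase k,
        g i * (if i ≤ k then (((n - 2 * i).choose (k - i) : ℕ) : ℚ) else 0) = z := by
      have : ∀ i ∈ (Finset.range m).erase k, ∃ z : ℤ,
          g i * (if i ≤ k then (((n - 2 * i).choose (k - i) : ℕ) : ℚ) else 0) = z := by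
        intro i hi
        rw [Finset.mem_erase, Finset.mem_range] at hi
        split_ifs with hik
        · obtain ⟨z, hz⟩ := ih i (by omega) (by omega)
          exact ⟨z * ((n - 2 * i).choose (k - i) : ℕ), by rw [hz]; push_cast; ring⟩
        · exact ⟨0, by simp⟩
      choose! f hf using this
      exact ⟨∑ i ∈ (Finset.range m).erase k, f i, by rw [Finset.sum_congr rfl hf]; push_cast; rfl⟩
    obtain ⟨z, hz⟩ := h3
    rw [hz] at h1
    simp only [le_refl, if_true, Nat.sub_self, Nat.choose_zero_right, Nat.cast_one, mul_one] at h1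
    refine ⟨p.coeff k - z, ?_⟩
    push_cast
    have : (Int.castRingHom ℚ) (p.coeff k) = (p.coeff k : ℚ) := rfl
    rw [this] at h1
    linarith

theorem finish (n : ℕ) (p : ℤ[X])
    (hp : ((p.map (Int.castRingHom ℚ) : ℚ[X]) : PowerSeries ℚ) = S ^ n * aeval Y (G n)) :
    ∃ γ : ℕ → ℕ, p = ∑ i ∈ Finset.range (n / 2 + 1),
      C (γ i : ℤ) * X ^ i * (1 + X) ^ (n - 2 * i) := by
  rw [expand] at hp
  have h := Polynomial.coe_injective ℚ hp
  have h1 : ∀ k ∈ Finset.range (n / 2 + 1), ∃ z : ℕ, c n k = z := by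
    intro k hk
    obtain ⟨z, hz⟩ := integral n _ _ p h k (Finset.mem_range.1 hk)
    have h2 := (main n k).1
    rw [hz] at h2
    have h3 : 0 ≤ z := by exact_mod_cast h2
    exact ⟨z.toNat, by rw [hz]; exact_mod_cast (Int.toNat_of_nonneg h3).symm⟩
  choose! γ hγ using h1
  refine ⟨γ, ?_⟩
  apply Polynomial.map_injective (Int.castRingHom ℚ) Int.cast_injective
  rw [h, Polynomial.map_sum]
  apply Finset.sum_congr rfl
  intro k hk
  rw [hγ k hk]
  simp [mul_assoc]

end Pool.Agent.Q252.GamB
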