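import Pool.Agent.Q252.GamB.Surj
import Pool.Agent.Q252.GamB.Compat
import Pool.Agent.Q252.GamB.Fin

/-!
Assembly: the descent polynomial on the involutions of the hyperoctahedral group.
-/

set_option autoImplicit false

namespace Pool.Agent.Q252.GamB

open Finset

/-- the descent number -/
def des {n : ℕ} (w : SP n) : ℕ :=
  (univ.filter (fun j : Fin n => j.val = 0 ∧ w.2 j = true)).card +
    (univ.filter (fun p : Fin n × Fin n => p.2.val = p.1.val + 1 ∧ W w p.2 < W w p.1)).card

/-- the descent indicator -/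
def dl {n : ℕ} (w : SP n) (i : Fin n) : ℕ :=
  (if i.val = 0 ∧ w.2 i = true then 1 else 0) +
    (if ∃ j : Fin n, i.val = j.val + 1 ∧ W w i < W w j then 1 else 0)

theorem sum_dl {n : ℕ} (w : SP n) : ∑ i, dl w i = des w := by
  unfold dl des
  rw [sum_add_distrib, ← card_filter, ← card_filter]
  congr 1
  symm
  apply card_bij (fun p _ => p.2)
  · rintro ⟨a, b⟩ h
    simp only [mem_filter, mem_univ, true_and] at h ⊢
    exact ⟨a, h⟩
  · rintro ⟨a, b⟩ h ⟨a', b'⟩ h' hab
    simp only [mem_filter, mem_univ, true_and] at h h' hab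
    subst hab
    have : a = a' := Fin.ext (by omega)
    rw [this]
  · intro b hb
    simp only [mem_filter, mem_univ, true_and] at hb
    obtain ⟨a, ha⟩ := hb
    exact ⟨(a, b), by simp only [mem_filter, mem_univ, true_and]; exact ha, rfl⟩

/-- partial sums -/
def Dl {n : ℕ} (w : SP n) (i : Fin n) : ℕ := ∑ j ∈ Iic i, dl w j

theorem Dl_zero {n : ℕ} (w : SP n) (h : 0 < n) : Dl w ⟨0, h⟩ = dl w ⟨0, h⟩ := by
  unfold Dl
  have : (Iic (⟨0, h⟩ : Fin n)) = {⟨0, h⟩} := by
    ext x
    rw [mem_Iic, mem_singleton, Fin.le_def, Fin.ext_iff]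
    simp only
    omega
  rw [this, sum_singleton]

theorem Dl_succ {n : ℕ} (w : SP n) (m : ℕ) (h : m + 1 < n) :
    Dl w ⟨m + 1, h⟩ = Dl w ⟨m, by omega⟩ + dl w ⟨m + 1, h⟩ := by
  unfold Dl
  have : (Iic (⟨m + 1, h⟩ : Fin n)) = insert ⟨m + 1, h⟩ (Iic (⟨m, by omega⟩ : Fin n)) := by
    ext x
    rw [mem_Iic, mem_insert, mem_Iic, Fin.le_def, Fin.ext_iff, Fin.le_def]
    simp only
    omega
  rw [this, sum_insert, add_comm]
  rw [mem_Iic, Fin.le_def]
  simp only
  omega

theorem dl_zero {n : ℕ} (w : SP n) (h : 0 < n) : dl w ⟨0, h⟩ = if w.2 ⟨0, h⟩ = true then 1 else 0 := by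
  unfold dl
  have : ¬ ∃ j : Fin n, (⟨0, h⟩ : Fin n).val = j.val + 1 ∧ W w ⟨0, h⟩ < W w j := by
    rintro ⟨j, hj, _⟩
    simp only at hj
    omega
  rw [if_neg this, add_zero]
  simp

theorem dl_succ {n : ℕ} (w : SP n) (m : ℕ) (h : m + 1 < n) :
    dl w ⟨m + 1, h⟩ = if W w ⟨m + 1, h⟩ < W w ⟨m, by omega⟩ then 1 else 0 := by
  unfold dl
  rw [if_neg (by simp), zero_add]
  congr 1
  apply propext
  constructor
  · rintro ⟨j, hj, hlt⟩
    have : j = ⟨m, by omega⟩ := Fin.ext (by simp only at hj ⊢; omega)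
    rw [← this]
    exact hlt
  · intro hlt
    exact ⟨⟨m, by omega⟩, rfl, hlt⟩

theorem W_inj {n : ℕ} (w : SP n) {i j : Fin n} (h : W w i = W w j) : i = j := by
  rcases hi : w.2 i with _ | _ <;> rcases hj : w.2 j with _ | _
  · rw [W_pos hi, W_pos hj] at h
    exact w.1.injective (Fin.ext (by omega))
  · rw [W_pos hi, W_neg hj] at h; omega
  · rw [W_neg hi, W_pos hj] at h; omega
  · rw [W_neg hi, W_neg hj] at h
    exact w.1.injective (Fin.ext (by omega))

theorem good_iff {n k : ℕ} {w : SP n} (hw : ∀ i : Fin n, w.1 (w.1 i) = i ∧ w.2 (w.1 i) = w.2 i)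
    (f : Fin n → ℕ) : Good k w f ↔ f ∈ Cmp n k (Dl w) := by
  rw [mem_Cmp]
  constructor
  · intro h
    have hstep : ∀ (m : ℕ) (hm : m + 1 < n), f ⟨m, by omega⟩ + dl w ⟨m + 1, hm⟩ ≤ f ⟨m + 1, hm⟩ := by
      intro m hm
      have h1 := h.mono ⟨m, by omega⟩ ⟨m + 1, hm⟩ (by rw [Fin.le_def]; simp only; omega)
      rw [dl_succ]
      split_ifs with h2
      · rcases lt_or_eq_of_le h1 with h3 | h3
        · omega
        · have := h.inc ⟨m, by omega⟩ ⟨m + 1, hm⟩ (by rw [Fin.lt_def]; simp only; omega) h3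
          omega
      · omega
    refine ⟨h.le, ?_, ?_⟩
    · have : ∀ (m : ℕ) (hm : m < n), Dl w ⟨m, hm⟩ ≤ f ⟨m, hm⟩ := by
        intro m
        induction m with
        | zero =>
          intro hm
          rw [Dl_zero, dl_zero]
          split_ifs with h1
          · exact h.pos _ h1
          · exact Nat.zero_le _
        | succ m ih =>
          intro hm
          have h1 := ih (by omega)
          have h2 := hstep m hm
          rw [Dl_succ]
          omega
      exact fun i => this i.1 i.2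
    · have : ∀ (d m : ℕ) (hm : m + d < n), f ⟨m, by omega⟩ + Dl w ⟨m + d, hm⟩ ≤
          f ⟨m + d, hm⟩ + Dl w ⟨m, by omega⟩ := by
        intro d
        induction d with
        | zero => intro m hm; exact le_refl _
        | succ d ih =>
          intro m hm
          have h1 := ih m (by omega)
          have h2 := hstep (m + d) (by omega)
          have h3 := Dl_succ w (m + d) (by omega)
          have e : (⟨m + (d + 1), hm⟩ : Fin n) = ⟨m + d + 1, by omega⟩ := rfl
          rw [e, h3]
          omega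
      intro i j hij
      have h1 : (i : ℕ) ≤ j := hij
      have h2 := this (j - i) i (by have := j.2; omega)
      have e : (⟨(i : ℕ) + (j - i), by have := j.2; omega⟩ : Fin n) = j := Fin.ext (by simp only; omega)
      rw [e] at h2
      exact h2
  · rintro ⟨h1, h2, h3⟩
    have hmono : ∀ i j : Fin n, i ≤ j → Dl w i ≤ Dl w j := by
      intro i j hij
      exact sum_le_sum_of_subset (Iic_subset_Iic.2 hij)
    -- flat stretches have increasing values
    have hflat : ∀ (d m : ℕ) (hm : m + d < n), Dl w ⟨m + d, hm⟩ ≤ Dl w ⟨m, by omega⟩ →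
        W w ⟨m, by omega⟩ ≤ W w ⟨m + d, hm⟩ := by
      intro d
      induction d with
      | zero => intro m hm _; exact le_refl _
      | succ d ih =>
        intro m hm hle
        have e : (⟨m + (d + 1), hm⟩ : Fin n) = ⟨m + d + 1, by omega⟩ := rfl
        rw [e, Dl_succ w (m + d) (by omega)] at hle
        have h4 := hmono ⟨m, by omega⟩ ⟨m + d, by omega⟩ (by rw [Fin.le_def]; simp only; omega)
        have h5 := ih m (by omega) (by omega)
        have h6 : dl w ⟨m + d + 1, by omega⟩ = 0 := by omega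
        rw [dl_succ] at h6
        rw [e]
        split_ifs at h6 with h7
        omega
    refine ⟨hw, h1, fun i j hij => ?_, fun i j hij hf => ?_, fun i hi => ?_⟩
    · have := h3 i j hij
      have := hmono i j hij
      omega
    · have h4 := h3 i j hij.le
      have hij' : (i : ℕ) < j := hij
      have h5 := hflat (j - i) i (by have := j.2; omega)
      have e : (⟨(i : ℕ) + (j - i), by have := j.2; omega⟩ : Fin n) = j := Fin.ext (by simp only; omega)
      rw [e] at h5
      have h6 := h5 (by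
        have e2 : (⟨(i : ℕ), by have := i.2; omega⟩ : Fin n) = i := rfl
        rw [e2]; omega)
      have e2 : (⟨(i : ℕ), by have := i.2; omega⟩ : Fin n) = i := rfl
      rw [e2] at h6
      rcases lt_or_eq_of_le h6 with h7 | h7
      · exact h7
      · exact absurd (W_inj w h7) hij.ne
    · by_contra hc
      have hf0 : f i = 0 := by omega
      have hD := h2 i
      have hn : 0 < n := by have := i.2; omega
      have h4 := hmono ⟨0, hn⟩ i (by rw [Fin.le_def]; simp only; omega)
      rw [Dl_zero, dl_zero] at h4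
      have h5 : ¬ w.2 ⟨0, hn⟩ = true := by
        intro h6
        rw [if_pos h6] at h4
        omega
      have h6 := hflat i 0 (by have := i.2; omega)
      have e : (⟨0 + (i : ℕ), by have := i.2; omega⟩ : Fin n) = i := Fin.ext (by simp)
      rw [e] at h6
      have h7 := h6 (by omega)
      rw [W_pos (by rw [Bool.not_eq_true] at h5; exact h5), W_neg hi] at h7
      omega

/-- the involutions -/
def Inv (n : ℕ) : Finset (SP n) :=
  (univ : Finset (SP n)).filter (fun w => ∀ i : Fin n, w.1 (w.1 i) = i ∧ w.2 (w.1 i) = w.2 i)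

theorem mem_Inv {n : ℕ} {w : SP n} : w ∈ Inv n ↔
    ∀ i : Fin n, w.1 (w.1 i) = i ∧ w.2 (w.1 i) = w.2 i := by
  unfold Inv
  rw [mem_filter]
  exact ⟨fun h => h.2, fun h => ⟨mem_univ _, h⟩⟩

theorem count (n k : ℕ) : ∑ w ∈ Inv n, (n + k - des w).choose n = #(Lab k n) := by
  have h1 : ∀ w ∈ Inv n, (n + k - des w).choose n = #(Cmp n k (Dl w)) := by
    intro w _
    rw [← sum_dl, ← card_Cmp]
    rfl
  rw [sum_congr rfl h1, ← card_sigma]
  apply card_bij (fun x _ => lab k x.1 x.2)
  · rintro ⟨w, f⟩ h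
    rw [mem_sigma] at h
    exact lab_mem ((good_iff (mem_Inv.1 h.1) f).2 h.2)
  · rintro ⟨w, f⟩ h ⟨w', f'⟩ h' hl
    rw [mem_sigma] at h h'
    have := inj ((good_iff (mem_Inv.1 h.1) f).2 h.2) ((good_iff (mem_Inv.1 h'.1) f').2 h'.2) hl
    obtain ⟨e1, e2⟩ := this
    simp only at e1
    subst e1
    rw [e2]
  · intro l hl
    obtain ⟨w, f, hg, hlab⟩ := surj hl
    refine ⟨⟨w, f⟩, ?_, hlab⟩
    rw [mem_sigma]
    exact ⟨mem_Inv.2 hg.inv, (good_iff hg.inv f).1 hg⟩

theorem count_rat (n k : ℕ) : f (2 * k + 1) (k ^ 2) n =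
    ∑ w ∈ Inv n, (((n + k - des w).choose n : ℕ) : ℚ) := by
  rw [← card_Lab, ← count]
  push_cast
  rfl

theorem main_series (n : ℕ) : (((∑ w ∈ Inv n, (Polynomial.X : Polynomial ℤ) ^ des w).map
    (Int.castRingHom ℚ) : Polynomial ℚ) : PowerSeries ℚ) = S ^ n * Polynomial.aeval Y (G n) := by
  rw [← series (fun n k => f (2 * k + 1) (k ^ 2) n) (fun k => f_zero _ _)
    (fun k => by simp only [f_one]; push_cast; ring)
    (fun n k => by simp only [f_rec]; push_cast; ring)]
  have h1 : (PowerSeries.mk (fun k => f (2 * k + 1) (k ^ 2) n) : PowerSeries ℚ) =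
      ∑ w ∈ Inv n, PowerSeries.X ^ des w * PowerSeries.mk fun m => (((n + m).choose n : ℕ) : ℚ) := by
    ext k
    rw [PowerSeries.coeff_mk, count_rat, map_sum]
    apply sum_congr rfl
    intro w _
    rw [PowerSeries.coeff_X_pow_mul', PowerSeries.coeff_mk]
    split_ifs with h
    · have : n + (k - des w) = n + k - des w := by omega
      rw [this]
    · rcases Nat.eq_zero_or_pos n with hn | hn
      · subst hn
        exfalso
        apply h
        have : des w = 0 := by
          rw [← sum_dl]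
          exact sum_eq_zero (fun i _ => i.elim0)
        omega
      · rw [Nat.choose_eq_zero_of_lt (by omega)]
        simp
  rw [h1, mul_sum, Polynomial.map_sum, ← Polynomial.coeToPowerSeries.ringHom_apply, map_sum]
  apply sum_congr rfl
  intro w _
  have h2 := PowerSeries.mk_add_choose_mul_one_sub_pow_eq_one (S := ℚ) (d := n)
  rw [Polynomial.map_pow, Polynomial.map_X, Polynomial.coeToPowerSeries.ringHom_apply]
  push_cast
  linear_combination (-(PowerSeries.X ^ des w)) * h2

theorem main_result (n : ℕ) : ∃ γ : ℕ → ℕ, ∑ w ∈ Inv n, (Polynomial.X : Polynomial ℤ) ^ des w =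
    ∑ i ∈ range (n / 2 + 1),
      Polynomial.C (γ i : ℤ) * Polynomial.X ^ i * (1 + Polynomial.X) ^ (n - 2 * i) :=
  finish n _ (main_series n)

end Pool.Agent.Q252.GamB
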