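import Pool.Agent.Q252.GamB.Ode

/-!
Counting labellings of the cells.
-/

set_option autoImplicit false

namespace Pool.Agent.Q252.GamB

open Finset

/-- the cells `(a, b)`, `0 ≤ a ≤ k`, `|b| ≤ a` -/
noncomputable def cells (k : ℕ) : Finset (ℤ × ℤ) :=
  ((Icc (0 : ℤ) k) ×ˢ (Icc (-(k : ℤ)) k)).filter (fun c => |c.2| ≤ c.1)

theorem mem_cells {k : ℕ} {c : ℤ × ℤ} : c ∈ cells k ↔ c.1 ≤ k ∧ |c.2| ≤ c.1 := by
  unfold cells
  rw [mem_filter, mem_product, mem_Icc, mem_Icc]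
  constructor
  · rintro ⟨⟨h1, _⟩, h2⟩
    exact ⟨h1.2, h2⟩
  · rintro ⟨h1, h2⟩
    have := abs_le.1 (le_refl |c.2|)
    have := abs_nonneg c.2
    refine ⟨⟨⟨by omega, h1⟩, ?_, ?_⟩, h2⟩ <;> omega

/-- weight of a cell -/
def wt (c : ℤ × ℤ) : ℕ := if |c.2| = c.1 then 1 else 2

theorem row_prod (k : ℕ) : ∏ b ∈ Icc (-((k + 1 : ℕ) : ℤ)) ((k + 1 : ℕ) : ℤ),
    G1 (wt (((k + 1 : ℕ) : ℤ), b)) = G1 1 ^ 2 * G1 2 ^ (2 * k + 1) := by
  have h : ∀ b : ℤ, G1 (wt (((k + 1 : ℕ) : ℤ), b)) =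
      if |b| = ((k + 1 : ℕ) : ℤ) then G1 1 else G1 2 := by
    intro b
    unfold wt
    split_ifs <;> rfl
  have h1 : (Icc (-((k + 1 : ℕ) : ℤ)) ((k + 1 : ℕ) : ℤ)).filter (fun b => |b| = ((k + 1 : ℕ) : ℤ)) =
      {-((k + 1 : ℕ) : ℤ), ((k + 1 : ℕ) : ℤ)} := by
    ext b
    rw [mem_filter, mem_Icc, mem_insert, mem_singleton, abs_eq (by positivity)]
    constructor
    · rintro ⟨_, h | h⟩ <;> omega
    · rintro (h | h) <;> constructor <;> omega
  have h2 : #((Icc (-((k + 1 : ℕ) : ℤ)) ((k + 1 : ℕ) : ℤ)).filter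
      (fun b => |b| = ((k + 1 : ℕ) : ℤ))) = 2 := by
    rw [h1, card_pair]
    omega
  have h3 := card_filter_add_card_filter_not (s := Icc (-((k + 1 : ℕ) : ℤ)) ((k + 1 : ℕ) : ℤ))
    (fun b => |b| = ((k + 1 : ℕ) : ℤ))
  rw [h2, Int.card_Icc] at h3
  have h4 : #((Icc (-((k + 1 : ℕ) : ℤ)) ((k + 1 : ℕ) : ℤ)).filter
      (fun b => ¬ |b| = ((k + 1 : ℕ) : ℤ))) = 2 * k + 1 := by omega
  rw [prod_congr rfl (fun b _ => h b), prod_ite, prod_const, prod_const, h2, h4]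

theorem cells_prod (k : ℕ) : ∏ c ∈ cells k, G1 (wt c) = F (2 * k + 1) (k ^ 2) := by
  induction k with
  | zero =>
    have : cells 0 = {(0, 0)} := by
      ext ⟨a, b⟩
      rw [mem_cells, mem_singleton]
      simp only [Prod.mk.injEq, Nat.cast_zero]
      constructor
      · rintro ⟨h1, h2⟩
        have h3 := abs_nonneg b
        have h4 : a = 0 := by omega
        have h5 : |b| = 0 := by omega
        exact ⟨h4, abs_eq_zero.1 h5⟩
      · rintro ⟨rfl, rfl⟩; simp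
    rw [this, prod_singleton]
    simp [wt, F]
  | succ k ih =>
    have h : cells (k + 1) = cells k ∪ (Icc (-((k + 1 : ℕ) : ℤ)) ((k + 1 : ℕ) : ℤ)).image
        (fun b => (((k + 1 : ℕ) : ℤ), b)) := by
      ext ⟨a, b⟩
      rw [mem_union, mem_cells, mem_cells, mem_image]
      simp only [mem_Icc, Prod.mk.injEq]
      constructor
      · rintro ⟨h1, h2⟩
        by_cases h3 : a ≤ (k : ℤ)
        · left; exact ⟨h3, h2⟩
        · right
          push_cast at h1
          have h4 : a = ((k + 1 : ℕ) : ℤ) := by push_cast; omega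
          rw [h4] at h2
          exact ⟨b, abs_le.1 h2, h4.symm, rfl⟩
      · rintro (⟨h1, h2⟩ | ⟨b', h1, h2, h3⟩)
        · exact ⟨by push_cast; omega, h2⟩
        · subst h3
          rw [← h2]
          exact ⟨le_refl _, abs_le.2 h1⟩
    have hd : Disjoint (cells k) ((Icc (-((k + 1 : ℕ) : ℤ)) ((k + 1 : ℕ) : ℤ)).image
        (fun b => (((k + 1 : ℕ) : ℤ), b))) := by
      rw [disjoint_left]
      rintro ⟨a, b⟩ h1 h2
      rw [mem_cells] at h1
      rw [mem_image] at h2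
      obtain ⟨b', _, h3⟩ := h2
      simp only [Prod.mk.injEq] at h3
      have := h1.1
      simp only at this
      push_cast at h3
      omega
    rw [h, prod_union hd, ih, prod_image (fun x _ y _ hxy => (Prod.mk.inj hxy).2), row_prod]
    unfold F
    have e : (k + 1) ^ 2 = k ^ 2 + (2 * k + 1) := by ring
    have e2 : 2 * (k + 1) + 1 = (2 * k + 1) + 2 := by ring
    rw [e, e2, pow_add, pow_add]
    ring

/-- labellings of the cells of total `n` with labels divisible by the weights -/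
noncomputable def Lab (k n : ℕ) : Finset ((ℤ × ℤ) →₀ ℕ) :=
  ((cells k).finsuppAntidiag n).filter (fun l => ∀ c ∈ cells k, wt c ∣ l c)

theorem card_Lab (k n : ℕ) : (#(Lab k n) : ℚ) = f (2 * k + 1) (k ^ 2) n := by
  unfold f
  rw [← cells_prod, PowerSeries.coeff_prod]
  have h : ∀ l : (ℤ × ℤ) →₀ ℕ, ∏ i ∈ cells k, (PowerSeries.coeff (l i)) (G1 (wt i)) =
      if ∀ i ∈ cells k, wt i ∣ l i then (1 : ℚ) else 0 := by
    intro l
    simp only [G1, PowerSeries.coeff_mk]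
    rw [prod_ite_zero]
    simp
  rw [sum_congr rfl (fun l _ => h l), Lab, card_filter]
  push_cast
  rfl

end Pool.Agent.Q252.GamB
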