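import Mathlib

/-!
Pairs (signed involution, compatible level function): the sorted two-line array.
-/

set_option autoImplicit false

namespace Pool.Agent.Q252.GamB

open Finset

/-- signed permutations -/
abbrev SP (n : ℕ) := Equiv.Perm (Fin n) × (Fin n → Bool)

/-- the window entry -/
def W {n : ℕ} (w : SP n) (i : Fin n) : ℤ :=
  (if w.2 i then (-1 : ℤ) else 1) * (((w.1 i : ℕ) : ℤ) + 1)

theorem W_pos {n : ℕ} {w : SP n} {i : Fin n} (h : w.2 i = false) :
    W w i = ((w.1 i : ℕ) : ℤ) + 1 := by
  simp [W, h]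

theorem W_neg {n : ℕ} {w : SP n} {i : Fin n} (h : w.2 i = true) :
    W w i = -(((w.1 i : ℕ) : ℤ) + 1) := by
  simp [W, h]

/-- triples with the lexicographic order -/
abbrev Tri := ℤ ×ₗ (ℤ ×ₗ ℕ)

/-- make a triple -/
def tri (a b : ℤ) (s : ℕ) : Tri := toLex (a, toLex (b, s))

theorem tri_lt {a b a' b' : ℤ} {s s' : ℕ} : tri a b s < tri a' b' s' ↔
    a < a' ∨ a = a' ∧ (b < b' ∨ b = b' ∧ s < s') := by
  unfold tri
  rw [Prod.Lex.toLex_lt_toLex, Prod.Lex.toLex_lt_toLex]

theorem tri_inj {a b a' b' : ℤ} {s s' : ℕ} : tri a b s = tri a' b' s' ↔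
    a = a' ∧ b = b' ∧ s = s' := by
  unfold tri
  rw [toLex_inj, Prod.mk.injEq, toLex_inj, Prod.mk.injEq]

/-- a compatible pair -/
structure Good {n : ℕ} (k : ℕ) (w : SP n) (f : Fin n → ℕ) : Prop where
  inv : ∀ i : Fin n, w.1 (w.1 i) = i ∧ w.2 (w.1 i) = w.2 i
  le : ∀ i, f i ≤ k
  mono : ∀ i j, i ≤ j → f i ≤ f j
  inc : ∀ i j, i < j → f i = f j → W w i < W w j
  pos : ∀ i, w.2 i = true → 0 < f i

section

variable {n k : ℕ} (w : SP n) (f : Fin n → ℕ)

/-- signed label -/
def v (i : Fin n) : ℤ := if w.2 i then -(f (w.1 i) : ℤ) else f (w.1 i)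

/-- the cell of a position -/
def cl (i : Fin n) : ℤ × ℤ := (f i, v w f i)

/-- the counts -/
def N (c : ℤ × ℤ) : ℕ := #(univ.filter fun i => cl w f i = c)

/-- rank inside the cell -/
def rk (i : Fin n) : ℕ := #(univ.filter fun j => j < i ∧ cl w f j = cl w f i)

/-- the sorted array -/
def EE (i : Fin n) : Tri := tri (f i) (v w f i) (rk w f i)

/-- the partner cell -/
def pt (c : ℤ × ℤ) : ℤ × ℤ := if 0 ≤ c.2 then (c.2, c.1) else (-c.2, -c.1)

variable {w f}

theorem v_pos {i : Fin n} (h : w.2 i = false) : v w f i = f (w.1 i) := by simp [v, h]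

theorem v_neg {i : Fin n} (h : w.2 i = true) : v w f i = -(f (w.1 i) : ℤ) := by simp [v, h]

theorem neg_iff (h : Good k w f) (i : Fin n) : w.2 i = true ↔ v w f i < 0 := by
  constructor
  · intro hi
    rw [v_neg hi]
    have := h.pos (w.1 i) (by rw [(h.inv i).2]; exact hi)
    omega
  · intro hi
    by_contra hc
    rw [Bool.not_eq_true] at hc
    rw [v_pos hc] at hi
    omega

theorem cl_sigma (h : Good k w f) (i : Fin n) : cl w f (w.1 i) = pt (cl w f i) := by
  unfold cl pt
  rcases hi : w.2 i with _ | _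
  · have h1 : w.2 (w.1 i) = false := by rw [(h.inv i).2]; exact hi
    rw [v_pos hi, v_pos h1, (h.inv i).1]
    simp
  · have h1 : w.2 (w.1 i) = true := by rw [(h.inv i).2]; exact hi
    have h2 := h.pos _ h1
    rw [v_neg hi, v_neg h1, (h.inv i).1]
    have : ¬ (0 : ℤ) ≤ -(f (w.1 i) : ℤ) := by omega
    simp only [this, if_false, neg_neg]

theorem sigma_lt (h : Good k w f) {i j : Fin n} (hf : f i = f j) (hi : w.2 i = false)
    (hj : w.2 j = false) : w.1 i < w.1 j ↔ i < j := by
  constructor
  · intro hlt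
    by_contra hc
    rcases lt_or_eq_of_le (not_lt.1 hc) with h1 | h1
    · have := h.inc _ _ h1 hf.symm
      rw [W_pos hi, W_pos hj] at this
      have h2 : (w.1 i : ℕ) < w.1 j := hlt
      omega
    · rw [h1] at hlt; exact lt_irrefl _ hlt
  · intro hlt
    have := h.inc _ _ hlt hf
    rw [W_pos hi, W_pos hj] at this
    rw [Fin.lt_def]
    omega

theorem sigma_gt (h : Good k w f) {i j : Fin n} (hf : f i = f j) (hi : w.2 i = true)
    (hj : w.2 j = true) : w.1 i < w.1 j ↔ j < i := by
  constructor
  · intro hlt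
    by_contra hc
    rcases lt_or_eq_of_le (not_lt.1 hc) with h1 | h1
    · have := h.inc _ _ h1 hf
      rw [W_neg hi, W_neg hj] at this
      have h2 : (w.1 i : ℕ) < w.1 j := hlt
      omega
    · rw [h1] at hlt; exact lt_irrefl _ hlt
  · intro hlt
    have := h.inc _ _ hlt hf.symm
    rw [W_neg hi, W_neg hj] at this
    rw [Fin.lt_def]
    omega

theorem v_mono (h : Good k w f) {i j : Fin n} (hij : i < j) (hf : f i = f j) :
    v w f i ≤ v w f j := by
  rcases hi : w.2 i with _ | _ <;> rcases hj : w.2 j with _ | _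
  · rw [v_pos hi, v_pos hj]
    exact_mod_cast h.mono _ _ ((sigma_lt h hf hi hj).2 hij).le
  · have := h.inc _ _ hij hf
    rw [W_pos hi, W_neg hj] at this
    omega
  · rw [v_neg hi, v_pos hj]
    omega
  · rw [v_neg hi, v_neg hj]
    have := h.mono _ _ ((sigma_gt h hf.symm hj hi).2 hij).le
    omega

theorem rk_mono {i j : Fin n} (hij : i < j) (hc : cl w f i = cl w f j) :
    rk w f i < rk w f j := by
  unfold rk
  apply card_lt_card
  rw [ssubset_iff_of_subset]
  · exact ⟨i, by simp [hij, hc], by simp⟩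
  · intro x hx
    simp only [mem_filter, mem_univ, true_and] at hx ⊢
    exact ⟨hx.1.trans hij, hx.2.trans hc⟩

theorem EE_strict (h : Good k w f) : StrictMono (EE w f) := by
  intro i j hij
  unfold EE
  rw [tri_lt]
  rcases lt_or_eq_of_le (h.mono i j hij.le) with h1 | h1
  · left; exact_mod_cast h1
  · right
    refine ⟨by exact_mod_cast h1, ?_⟩
    rcases lt_or_eq_of_le (v_mono h hij h1) with h2 | h2
    · left; exact h2
    · right
      exact ⟨h2, rk_mono hij (by unfold cl; rw [h1, h2])⟩

theorem rk_lt (i : Fin n) : rk w f i < N w f (cl w f i) := by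
  unfold rk N
  apply card_lt_card
  rw [ssubset_iff_of_subset]
  · exact ⟨i, by simp, by simp⟩
  · intro x hx
    simp only [mem_filter, mem_univ, true_and] at hx ⊢
    exact hx.2

theorem rk_surj (c : ℤ × ℤ) (s : ℕ) (hs : s < N w f c) :
    ∃ i, cl w f i = c ∧ rk w f i = s := by
  have h1 : (univ.filter fun i => cl w f i = c).image (rk w f) = range (N w f c) := by
    apply eq_of_subset_of_card_le
    · intro x hx
      rw [mem_image] at hx
      obtain ⟨i, hi, rfl⟩ := hx
      rw [mem_filter] at hi
      rw [mem_range, ← hi.2]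
      exact rk_lt i
    · rw [card_image_of_injOn, card_range]
      · exact le_refl _
      · intro i hi j hj hij
        rw [mem_coe, mem_filter] at hi hj
        rcases lt_trichotomy i j with h | h | h
        · exact absurd hij (rk_mono h (hi.2.trans hj.2.symm)).ne
        · exact h
        · exact absurd hij (rk_mono h (hj.2.trans hi.2.symm)).ne'
  have h2 : s ∈ (univ.filter fun i => cl w f i = c).image (rk w f) := by
    rw [h1]; exact mem_range.2 hs
  rw [mem_image] at h2
  obtain ⟨i, hi, hr⟩ := h2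
  exact ⟨i, (mem_filter.1 hi).2, hr⟩

theorem cl_iff (h : Good k w f) (i j : Fin n) :
    cl w f (w.1 i) = cl w f (w.1 j) ↔ cl w f i = cl w f j := by
  constructor
  · intro hc
    have h1 := cl_sigma h (w.1 i)
    have h2 := cl_sigma h (w.1 j)
    rw [(h.inv i).1] at h1
    rw [(h.inv j).1] at h2
    rw [h1, h2, hc]
  · intro hc
    rw [cl_sigma h, cl_sigma h, hc]

theorem sign_eq (h : Good k w f) {i j : Fin n} (hc : cl w f i = cl w f j) : w.2 i = w.2 j := by
  have h1 := (Prod.mk.inj hc).2
  have h2 := neg_iff h i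
  have h3 := neg_iff h j
  rw [h1, ← h3] at h2
  rcases hi : w.2 i with _ | _ <;> rcases hj : w.2 j with _ | _ <;> simp_all

theorem rk_sigma_pos (h : Good k w f) {i : Fin n} (hi : w.2 i = false) :
    rk w f (w.1 i) = rk w f i := by
  unfold rk
  symm
  apply card_bij (fun j _ => w.1 j)
  · intro j hj
    simp only [mem_filter, mem_univ, true_and] at hj ⊢
    have hj2 : w.2 j = false := (sign_eq h hj.2).trans hi
    exact ⟨(sigma_lt h (by have := (Prod.mk.inj hj.2).1; exact_mod_cast this) hj2 hi).2 hj.1,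
      (cl_iff h j i).2 hj.2⟩
  · intro a _ b _ hab
    exact w.1.injective hab
  · intro b hb
    simp only [mem_filter, mem_univ, true_and] at hb
    refine ⟨w.1 b, ?_, (h.inv b).1⟩
    have hb2 : cl w f (w.1 b) = cl w f i := by
      rw [← cl_iff h, (h.inv b).1]; exact hb.2
    have hs : w.2 (w.1 b) = false := (sign_eq h hb2).trans hi
    simp only [mem_filter, mem_univ, true_and]
    refine ⟨?_, hb2⟩
    rw [← sigma_lt h (by have := (Prod.mk.inj hb2).1; exact_mod_cast this) hs hi, (h.inv b).1]
    exact hb.1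

theorem rk_sigma_neg (h : Good k w f) {i : Fin n} (hi : w.2 i = true) :
    rk w f (w.1 i) = N w f (cl w f i) - 1 - rk w f i := by
  have h1 : rk w f (w.1 i) = #(univ.filter fun j => i < j ∧ cl w f j = cl w f i) := by
    unfold rk
    symm
    apply card_bij (fun j _ => w.1 j)
    · intro j hj
      simp only [mem_filter, mem_univ, true_and] at hj ⊢
      have hj2 : w.2 j = true := (sign_eq h hj.2).trans hi
      exact ⟨(sigma_gt h (by have := (Prod.mk.inj hj.2).1; exact_mod_cast this) hj2 hi).2 hj.1,
        (cl_iff h j i).2 hj.2⟩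
    · intro a _ b _ hab
      exact w.1.injective hab
    · intro b hb
      simp only [mem_filter, mem_univ, true_and] at hb
      refine ⟨w.1 b, ?_, (h.inv b).1⟩
      have hb2 : cl w f (w.1 b) = cl w f i := by
        rw [← cl_iff h, (h.inv b).1]; exact hb.2
      have hs : w.2 (w.1 b) = true := (sign_eq h hb2).trans hi
      simp only [mem_filter, mem_univ, true_and]
      refine ⟨?_, hb2⟩
      rw [← sigma_gt h (by have := (Prod.mk.inj hb2).1; exact_mod_cast this) hs hi, (h.inv b).1]
      exact hb.1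
  have h2 : N w f (cl w f i) = #(univ.filter fun j => j < i ∧ cl w f j = cl w f i) +
      #(univ.filter fun j => i < j ∧ cl w f j = cl w f i) + 1 := by
    unfold N
    have e : (univ.filter fun j => cl w f j = cl w f i) =
        ((univ.filter fun j => j < i ∧ cl w f j = cl w f i) ∪
        (univ.filter fun j => i < j ∧ cl w f j = cl w f i)) ∪ {i} := by
      ext j
      simp only [mem_filter, mem_univ, true_and, mem_union, mem_singleton]
      constructor
      · intro hj
        rcases lt_trichotomy j i with h | h | h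
        · exact Or.inl (Or.inl ⟨h, hj⟩)
        · exact Or.inr h
        · exact Or.inl (Or.inr ⟨h, hj⟩)
      · rintro ((h | h) | h)
        · exact h.2
        · exact h.2
        · rw [h]
    rw [e, card_union_of_disjoint, card_union_of_disjoint, card_singleton]
    · rw [disjoint_left]
      intro x hx hy
      simp only [mem_filter, mem_univ, true_and] at hx hy
      exact lt_asymm hx.1 hy.1
    · rw [disjoint_singleton_right]
      simp
  rw [h1, h2]
  unfold rk
  omega

end

end Pool.Agent.Q252.GamB
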