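import Pool.Agent.Q252.GamB.Cells
import Pool.Agent.Q252.GamB.Pair

/-!
The labelling of a pair determines the pair.
-/

set_option autoImplicit false

namespace Pool.Agent.Q252.GamB

open Finset

variable {n k : ℕ} {w w' : SP n} {f f' : Fin n → ℕ}

/-- the possible cells -/
def dom (c : ℤ × ℤ) : Prop := (0 ≤ c.1 ∧ 0 ≤ c.2) ∨ (0 < c.1 ∧ c.2 < 0)

theorem pt_pt {c : ℤ × ℤ} (h : dom c) : pt (pt c) = c := by
  obtain ⟨a, b⟩ := c
  unfold pt dom at *
  simp only at h ⊢
  rcases h with ⟨h1, h2⟩ | ⟨h1, h2⟩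
  · simp [h1, h2]
  · have e1 : ¬ (0 ≤ b) := by omega
    have e2 : ¬ (a ≤ 0) := by omega
    simp [e1, e2]

theorem dom_pt {c : ℤ × ℤ} (h : dom c) : dom (pt c) := by
  obtain ⟨a, b⟩ := c
  unfold pt dom at *
  simp only at h ⊢
  rcases h with ⟨h1, h2⟩ | ⟨h1, h2⟩
  · simp [h1, h2]
  · have e1 : ¬ (0 ≤ b) := by omega
    simp [e1]
    omega

theorem dom_cl (h : Good k w f) (i : Fin n) : dom (cl w f i) := by
  unfold dom cl
  simp only
  rcases hi : w.2 i with _ | _
  · left; rw [v_pos hi]; constructor <;> omega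
  · right
    have := h.pos i hi
    have := (neg_iff h i).1 hi
    constructor <;> omega

theorem v_abs (_h : Good k w f) (i : Fin n) : |v w f i| = f (w.1 i) := by
  rcases hi : w.2 i with _ | _
  · rw [v_pos hi]; simp
  · rw [v_neg hi]; simp

theorem dom_cells {c : ℤ × ℤ} (h : c ∈ cells k) : dom c := by
  rw [mem_cells] at h
  unfold dom
  have := abs_le.1 h.2
  have := abs_nonneg c.2
  by_cases h2 : 0 ≤ c.2
  · left; constructor <;> omega
  · right
    have h3 : |c.2| = -c.2 := abs_of_neg (by omega)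
    constructor <;> omega

theorem pt_cells {c : ℤ × ℤ} (hd : dom c) (hb : |c.2| ≤ k) (h : c.1 < |c.2|) :
    pt c ∈ cells k := by
  obtain ⟨a, b⟩ := c
  rw [mem_cells]
  unfold pt dom at *
  simp only at hd hb h ⊢
  rcases hd with ⟨h1, h2⟩ | ⟨h1, h2⟩
  · rw [abs_of_nonneg h2] at hb h
    simp only [h2, if_true]
    rw [abs_of_nonneg h1]
    omega
  · have e1 : ¬ (0 ≤ b) := by omega
    rw [abs_of_neg h2] at hb h
    simp only [e1, if_false, abs_neg]
    rw [abs_of_pos h1]
    omega

theorem N_pt (h : Good k w f) {c : ℤ × ℤ} (hd : dom c) : N w f (pt c) = N w f c := by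
  unfold N
  apply card_bij (fun i _ => w.1 i)
  · intro i hi
    simp only [mem_filter, mem_univ, true_and] at hi ⊢
    rw [cl_sigma h, hi, pt_pt hd]
  · intro a _ b _ hab
    exact w.1.injective hab
  · intro b hb
    simp only [mem_filter, mem_univ, true_and] at hb
    refine ⟨w.1 b, ?_, (h.inv b).1⟩
    simp only [mem_filter, mem_univ, true_and]
    rw [cl_sigma h, hb]

theorem wt_pos (c : ℤ × ℤ) : 0 < wt c := by unfold wt; split_ifs <;> omega

/-- the labelling of a pair -/
noncomputable def lab (k : ℕ) (w : SP n) (f : Fin n → ℕ) : (ℤ × ℤ) →₀ ℕ :=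
  Finsupp.onFinset (cells k) (fun c => if c ∈ cells k then wt c * N w f c else 0) (by
    intro c hc
    by_contra h
    simp [h] at hc)

theorem lab_apply (c : ℤ × ℤ) : lab k w f c = if c ∈ cells k then wt c * N w f c else 0 := rfl

theorem sum_lab (h : Good k w f) : ∑ c ∈ cells k, wt c * N w f c = n := by
  have h1 : ∀ c, wt c * N w f c = ∑ i : Fin n, if cl w f i = c then wt c else 0 := by
    intro c
    unfold N
    rw [card_filter, mul_sum]
    apply sum_congr rfl
    intro i _
    split_ifs <;> simp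
  simp only [h1]
  rw [sum_comm]
  have h2 : ∀ i : Fin n, ∑ c ∈ cells k, (if cl w f i = c then wt c else 0) =
      if f (w.1 i) ≤ f i then (if f (w.1 i) = f i then 1 else 2) else 0 := by
    intro i
    rw [sum_ite_eq]
    have e1 : cl w f i ∈ cells k ↔ f (w.1 i) ≤ f i := by
      rw [mem_cells]
      unfold cl
      simp only
      rw [v_abs h]
      have := h.le i
      constructor
      · rintro ⟨_, h2⟩; exact_mod_cast h2
      · intro h2; exact ⟨by exact_mod_cast this, by exact_mod_cast h2⟩
    have e2 : wt (cl w f i) = if f (w.1 i) = f i then 1 else 2 := by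
      unfold wt cl
      simp only
      rw [v_abs h]
      norm_cast
    simp only [e1, e2]
  rw [sum_congr rfl (fun i _ => h2 i)]
  set u : Fin n → ℕ := fun i => if f (w.1 i) ≤ f i then (if f (w.1 i) = f i then 1 else 2) else 0
    with hu
  have h3 : ∀ i, u i + u (w.1 i) = 2 := by
    intro i
    simp only [hu, (h.inv i).1]
    split_ifs <;> omega
  have h4 : ∑ i, u (w.1 i) = ∑ i, u i := Equiv.sum_comp w.1 u
  have h5 : ∑ i, (u i + u (w.1 i)) = 2 * n := by
    rw [sum_congr rfl (fun i _ => h3 i)]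
    simp [mul_comm]
  rw [sum_add_distrib, h4] at h5
  have : ∑ i, u i = n := by omega
  exact this

theorem lab_mem (h : Good k w f) : lab k w f ∈ Lab k n := by
  unfold Lab
  rw [mem_filter, mem_finsuppAntidiag]
  refine ⟨⟨?_, Finsupp.support_onFinset_subset⟩, ?_⟩
  · refine Eq.trans ?_ (sum_lab h)
    apply sum_congr rfl
    intro c hc
    rw [lab_apply, if_pos hc]
  · intro c hc
    rw [lab_apply, if_pos hc]
    exact dvd_mul_right _ _

theorem N_le (h : Good k w f) (h' : Good k w' f') (hl : lab k w f = lab k w' f') (c : ℤ × ℤ) :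
    N w f c ≤ N w' f' c := by
  rcases Nat.eq_zero_or_pos (N w f c) with h0 | h0
  · rw [h0]; exact Nat.zero_le _
  · unfold N at h0
    obtain ⟨i, hi⟩ := card_pos.1 h0
    simp only [mem_filter, mem_univ, true_and] at hi
    have hd : dom c := hi ▸ dom_cl h i
    have hb : |c.2| ≤ k := by
      rw [← hi]
      show |v w f i| ≤ k
      rw [v_abs h]
      exact_mod_cast h.le _
    have key : ∀ d, d ∈ cells k → N w f d = N w' f' d := by
      intro d hd
      have := DFunLike.congr_fun hl d
      rw [lab_apply, lab_apply, if_pos hd, if_pos hd] at this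
      exact Nat.eq_of_mul_eq_mul_left (wt_pos d) this
    by_cases h1 : |c.2| ≤ c.1
    · refine (key c ?_).le
      rw [mem_cells]
      refine ⟨?_, h1⟩
      rw [← hi]
      show ((f i : ℕ) : ℤ) ≤ k
      exact_mod_cast h.le _
    · have h2 := key _ (pt_cells hd hb (by omega))
      rw [N_pt h hd, N_pt h' hd] at h2
      exact h2.le

theorem inj (h : Good k w f) (h' : Good k w' f') (hl : lab k w f = lab k w' f') :
    w = w' ∧ f = f' := by
  have hN : ∀ c, N w f c = N w' f' c := fun c =>
    le_antisymm (N_le h h' hl c) (N_le h' h hl.symm c)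
  have s1 := EE_strict h
  have s2 := EE_strict h'
  have hc : #(univ.image (EE w f)) = n := by
    rw [card_image_of_injective _ s1.injective, card_univ, Fintype.card_fin]
  have e1 := orderEmbOfFin_unique hc (f := EE w f) (fun x => mem_image_of_mem _ (mem_univ x)) s1
  have e2 := orderEmbOfFin_unique hc (f := EE w' f') (fun x => by
    have h1 := rk_lt (w := w') (f := f') x
    rw [← hN] at h1
    obtain ⟨i, hi, hr⟩ := rk_surj (w := w) (f := f) _ _ h1
    rw [mem_image]
    refine ⟨i, mem_univ _, ?_⟩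
    unfold EE
    rw [tri_inj]
    exact ⟨(Prod.mk.inj hi).1, (Prod.mk.inj hi).2, hr⟩) s2
  have e3 : EE w f = EE w' f' := e1.trans e2.symm
  have e4 : ∀ i, (f i : ℤ) = f' i ∧ v w f i = v w' f' i ∧ rk w f i = rk w' f' i := by
    intro i
    have := congrFun e3 i
    unfold EE at this
    rwa [tri_inj] at this
  have e5 : f = f' := funext fun i => by exact_mod_cast (e4 i).1
  have e6 : w.2 = w'.2 := by
    funext i
    have h1 := neg_iff h i
    have h2 := neg_iff h' i
    rw [(e4 i).2.1, ← h2] at h1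
    exact Bool.eq_iff_iff.2 h1
  have e7 : ∀ i, w.1 i = w'.1 i := by
    intro i
    apply s1.injective
    have h1 : EE w f (w'.1 i) = EE w' f' (w'.1 i) := congrFun e3 _
    rw [h1]
    have c1 := cl_sigma h i
    have c2 := cl_sigma h' i
    have c3 : cl w f i = cl w' f' i := by
      unfold cl
      rw [(e4 i).1, (e4 i).2.1]
    rw [c3, ← c2] at c1
    unfold EE
    rw [tri_inj]
    refine ⟨(Prod.mk.inj c1).1, (Prod.mk.inj c1).2, ?_⟩
    rcases hi : w.2 i with _ | _
    · rw [rk_sigma_pos h hi, rk_sigma_pos h' (by rw [← e6]; exact hi), (e4 i).2.2]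
    · rw [rk_sigma_neg h hi, rk_sigma_neg h' (by rw [← e6]; exact hi), (e4 i).2.2, c3, hN]
  exact ⟨Prod.ext (Equiv.ext e7) e6, e5⟩

end Pool.Agent.Q252.GamB
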