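import Mathlib

/-!
Coefficients of `(1-X)^{-p} (1-X²)^{-q}`.
-/

set_option autoImplicit false

namespace Pool.Agent.Q252.GamB

open PowerSeries

/-- `1/(1-X^d)` -/
noncomputable def G1 (d : ℕ) : ℚ⟦X⟧ := PowerSeries.mk fun m => if d ∣ m then 1 else 0

theorem G1_mul (d : ℕ) (hd : 0 < d) : (1 - X ^ d) * G1 d = 1 := by
  ext m
  rw [sub_mul, one_mul, map_sub, coeff_X_pow_mul', coeff_one]
  simp only [G1, coeff_mk]
  rcases Nat.eq_zero_or_pos m with h | h
  · subst h
    have : ¬ d ≤ 0 := by omega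
    simp [this]
  · have hm : m ≠ 0 := by omega
    rw [if_neg hm]
    split_ifs with h1 h2 h3 h3 h4 h4
    · ring
    · exact absurd ((Nat.dvd_sub_iff_left h2 (dvd_refl d)).2 h1) h3
    · exact absurd (Nat.le_of_dvd h h1) h2
    · exact absurd ((Nat.dvd_sub_iff_left h3 (dvd_refl d)).1 h4) h1
    · ring
    · ring

theorem dG1 : (1 - X ^ 1) * d⁄dX ℚ (G1 1) = G1 1 := by
  have h := congrArg (d⁄dX ℚ) (G1_mul 1 one_pos)
  rw [Derivation.leibniz, derivative_one, map_sub, derivative_one, derivative_pow,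
    derivative_X] at h
  simp only [smul_eq_mul] at h
  have h2 := G1_mul 1 one_pos
  push_cast at h
  simp only [Nat.sub_self, pow_zero, pow_one, mul_one, zero_sub] at h h2 ⊢
  linear_combination h

theorem dG2 : (1 - X ^ 2) * d⁄dX ℚ (G1 2) = 2 * X * G1 2 := by
  have h := congrArg (d⁄dX ℚ) (G1_mul 2 two_pos)
  rw [Derivation.leibniz, derivative_one, map_sub, derivative_one, derivative_pow,
    derivative_X] at h
  simp only [smul_eq_mul] at h
  push_cast at h
  have e : (2 - 1 : ℕ) = 1 := rfl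
  simp only [e, pow_one, mul_one, zero_sub] at h
  linear_combination h

/-- the product -/
noncomputable def F (p q : ℕ) : ℚ⟦X⟧ := G1 1 ^ p * G1 2 ^ q

theorem ode (p q : ℕ) : (1 - X ^ 2) * d⁄dX ℚ (F p q) =
    ((p : ℚ⟦X⟧) * (1 + X) + 2 * (q : ℚ⟦X⟧) * X) * F p q := by
  have h1 : (1 - X ^ 2) * d⁄dX ℚ (G1 1 ^ p) = (p : ℚ⟦X⟧) * (1 + X) * G1 1 ^ p := by
    rw [derivative_pow]
    rcases p with _ | p
    · simp
    · simp only [Nat.add_sub_cancel]
      have := dG1
      rw [pow_one] at this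
      linear_combination ((p + 1 : ℕ) : ℚ⟦X⟧) * (G1 1) ^ p * (1 + X) * this
  have h2 : (1 - X ^ 2) * d⁄dX ℚ (G1 2 ^ q) = 2 * (q : ℚ⟦X⟧) * X * G1 2 ^ q := by
    rw [derivative_pow]
    rcases q with _ | q
    · simp
    · simp only [Nat.add_sub_cancel]
      have := dG2
      linear_combination ((q + 1 : ℕ) : ℚ⟦X⟧) * (G1 2) ^ q * this
  unfold F
  rw [Derivation.leibniz]
  simp only [smul_eq_mul]
  linear_combination (G1 1 ^ p) * h2 + (G1 2 ^ q) * h1

/-- coefficients -/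
noncomputable def f (p q n : ℕ) : ℚ := coeff n (F p q)

theorem f_zero (p q : ℕ) : f p q 0 = 1 := by
  unfold f F
  rw [coeff_zero_eq_constantCoeff_apply, map_mul, map_pow, map_pow]
  have h : ∀ d, constantCoeff (G1 d) = 1 := by
    intro d
    rw [← coeff_zero_eq_constantCoeff_apply, G1, coeff_mk, if_pos (dvd_zero d)]
  rw [h, h]; simp

theorem f_one (p q : ℕ) : f p q 1 = p := by
  have h := congrArg (coeff 0) (ode p q)
  have h0 := f_zero p q
  unfold f at h0 ⊢
  rw [sub_mul, one_mul, map_sub, coeff_derivative, coeff_X_pow_mul'] at h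
  have e : ((p : ℚ⟦X⟧) * (1 + X) + 2 * (q : ℚ⟦X⟧) * X) * F p q =
      C (p : ℚ) * F p q + X * (C ((p : ℚ) + 2 * q) * F p q) := by
    rw [map_add, map_mul, map_natCast, map_natCast, map_ofNat]; ring
  rw [e, map_add, coeff_C_mul, coeff_zero_X_mul, h0] at h
  simpa using h

theorem f_rec (p q n : ℕ) : ((n : ℚ) + 2) * f p q (n + 2) =
    p * f p q (n + 1) + (n + p + 2 * q) * f p q n := by
  have h := congrArg (coeff (n + 1)) (ode p q)
  unfold f
  rw [sub_mul, one_mul, map_sub, coeff_derivative, coeff_X_pow_mul'] at h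
  have e : ((p : ℚ⟦X⟧) * (1 + X) + 2 * (q : ℚ⟦X⟧) * X) * F p q =
      C (p : ℚ) * F p q + X * (C ((p : ℚ) + 2 * q) * F p q) := by
    rw [map_add, map_mul, map_natCast, map_natCast, map_ofNat]; ring
  rw [e, map_add, coeff_C_mul, coeff_succ_X_mul, coeff_C_mul] at h
  rcases n with _ | n
  · simp at h ⊢
    linarith
  · have e2 : (2 : ℕ) ≤ n + 1 + 1 := by omega
    have e3 : n + 1 + 1 - 2 = n := rfl
    rw [if_pos e2, e3, coeff_derivative] at h
    push_cast at h ⊢
    linarith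

end Pool.Agent.Q252.GamB
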