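import Mathlib

/-!
The gamma recurrence for the involutions of the hyperoctahedral group, and its nonnegativity.
-/

set_option autoImplicit false

namespace Pool.Agent.Q252.GamB

open Polynomial

/-- The operator `E_m g = (1 + 4 m y) g + 2 y (1 - 4 y) g'`. -/
noncomputable def E (m : ℕ) (g : ℚ[X]) : ℚ[X] :=
  (1 + C (4 * (m : ℚ)) * X) * g + C 2 * (X * derivative g) - C 8 * (X * (X * derivative g))

/-- The gamma polynomials. -/
noncomputable def G : ℕ → ℚ[X]
  | 0 => 1
  | 1 => 1
  | (n + 2) => C (1 / ((n : ℚ) + 2)) * (E (n + 1) (G (n + 1)) +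
      C (1 / 2) * (E (n + 1) (E n (G n)) + C (2 * (n : ℚ) + 1) * ((1 - C 4 * X) * G n)))

theorem coeff_E_zero (m : ℕ) (g : ℚ[X]) : (E m g).coeff 0 = g.coeff 0 := by
  simp [E, add_mul, mul_assoc]

theorem coeff_E_succ (m : ℕ) (g : ℚ[X]) (k : ℕ) :
    (E m g).coeff (k + 1) = (2 * k + 3) * g.coeff (k + 1) + 4 * (m - 2 * k) * g.coeff k := by
  have h1 : (X * (X * derivative g)).coeff (k + 1) = k * g.coeff k := by
    rw [coeff_X_mul]
    rcases k with _ | k
    · simp
    · rw [coeff_X_mul, coeff_derivative]; push_cast; ring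
  simp only [E, add_mul, one_mul, mul_assoc, coeff_sub, coeff_add, coeff_C_mul, h1, coeff_X_mul,
    coeff_derivative]
  push_cast
  ring

theorem coeff_four_zero (g : ℚ[X]) : ((1 - C 4 * X) * g).coeff 0 = g.coeff 0 := by
  simp [sub_mul, mul_assoc]

theorem coeff_four_succ (g : ℚ[X]) (k : ℕ) :
    ((1 - C 4 * X) * g).coeff (k + 1) = g.coeff (k + 1) - 4 * g.coeff k := by
  simp only [sub_mul, one_mul, mul_assoc, coeff_sub, coeff_C_mul, coeff_X_mul]

/-- the gamma coefficients -/
noncomputable def c (n k : ℕ) : ℚ := (G n).coeff k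

theorem G_succ (n : ℕ) : G (n + 2) = C (1 / ((n : ℚ) + 2)) * (E (n + 1) (G (n + 1)) +
      C (1 / 2) * (E (n + 1) (E n (G n)) + C (2 * (n : ℚ) + 1) * ((1 - C 4 * X) * G n))) := by
  rw [G]

theorem rec0 (n : ℕ) : ((n : ℚ) + 2) * c (n + 2) 0 = c (n + 1) 0 + (n + 1) * c n 0 := by
  have h : ((n : ℚ) + 2) ≠ 0 := by positivity
  unfold c
  rw [G_succ, coeff_C_mul, coeff_add, coeff_C_mul, coeff_add, coeff_C_mul, coeff_E_zero,
    coeff_E_zero, coeff_E_zero, coeff_four_zero]
  field_simp
  ring

theorem rec1 (n : ℕ) : ((n : ℚ) + 2) * c (n + 2) 1 =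
    3 * c (n + 1) 1 + 4 * (n + 1) * c (n + 1) 0 + (n + 5) * c n 1 + 4 * n * c n 0 := by
  have h : ((n : ℚ) + 2) ≠ 0 := by positivity
  unfold c
  have h1 := coeff_E_succ (n + 1) (G (n + 1)) 0
  have h2 := coeff_E_succ (n + 1) (E n (G n)) 0
  have h3 := coeff_E_succ n (G n) 0
  rw [coeff_E_zero] at h2
  simp only [zero_add] at h1 h2 h3
  rw [h3] at h2
  have h5 := coeff_four_succ (G n) 0
  simp only [zero_add] at h5
  rw [G_succ, coeff_C_mul, coeff_add, coeff_C_mul, coeff_add, coeff_C_mul, h1, h2, h5]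
  push_cast
  field_simp
  ring

theorem rec2 (n k : ℕ) : ((n : ℚ) + 2) * c (n + 2) (k + 2) =
    (2 * k + 5) * c (n + 1) (k + 2) + 4 * (n - 1 - 2 * k) * c (n + 1) (k + 1) +
    ((2 * k + 5) ^ 2 + 2 * n + 1) / 2 * c n (k + 2) +
    4 * ((2 * k + 3) * (n + 2) - 4 * (k + 2) ^ 2 + (k + 2) + 1) * c n (k + 1) +
    8 * (n - 1 - 2 * k) * (n - 2 * k) * c n k := by
  have h : ((n : ℚ) + 2) ≠ 0 := by positivity
  unfold c
  have h1 := coeff_E_succ (n + 1) (G (n + 1)) (k + 1)
  have h2 := coeff_E_succ (n + 1) (E n (G n)) (k + 1)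
  have h3 := coeff_E_succ n (G n) (k + 1)
  have h4 := coeff_E_succ n (G n) k
  rw [h3, h4] at h2
  have h5 := coeff_four_succ (G n) (k + 1)
  rw [G_succ, coeff_C_mul, coeff_add, coeff_C_mul, coeff_add, coeff_C_mul, h1, h2, h5]
  push_cast
  field_simp
  ring

theorem c_zero (k : ℕ) : c 0 k = if k = 0 then 1 else 0 := by
  unfold c; rw [G]; simp [coeff_one]

theorem c_one (k : ℕ) : c 1 k = if k = 0 then 1 else 0 := by
  unfold c; rw [G]; simp [coeff_one]

/-- the critical inequality -/
theorem critical (m : ℕ) (hpos : ∀ n ≤ 2 * m + 3, ∀ k, 0 ≤ c n k)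
    (hz : ∀ n ≤ 2 * m + 3, ∀ k, n < 2 * k → c n k = 0)
    (hpos4 : 0 ≤ c (2 * m + 5) (m + 2)) :
    ((m : ℚ) + 2) * c (2 * m + 4) (m + 2) ≤ c (2 * m + 5) (m + 2) + 4 * c (2 * m + 4) (m + 1) := by
  have hm : (0 : ℚ) ≤ m := by positivity
  -- (a)
  have a := rec2 (2 * m + 2) m
  rw [hz (2 * m + 2 + 1) (by omega) (m + 2) (by omega),
    hz (2 * m + 2) (by omega) (m + 2) (by omega)] at a
  have a1 := hpos (2 * m + 2) (by omega) (m + 1)
  have a2 := hpos (2 * m + 2) (by omega) m
  have a3 := hpos (2 * m + 3) (by omega) (m + 1)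
  have a4 := hpos (2 * m + 3) (by omega) m
  push_cast at a
  have e1 : 2 * m + 2 + 2 = 2 * m + 4 := rfl
  have e2 : 2 * m + 2 + 1 = 2 * m + 3 := rfl
  rw [e1, e2] at a
  -- lower bound for c (2m+4) (m+1)
  have b : ((2 * m + 4 : ℕ) : ℚ) * c (2 * m + 4) (m + 1) ≥
      (2 * m + 3) * c (2 * m + 3) (m + 1) + 4 * (3 * m + 2) * c (2 * m + 2) m := by
    rcases m with _ | p
    · have b1 := rec1 2
      have b2 := hpos 3 (by norm_num) 0
      have b3 := hpos 2 (by norm_num) 1
      have b4 := hpos 2 (by norm_num) 0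
      norm_num at b1 ⊢
      have : c 4 1 = c (2 + 2) 1 := rfl
      nlinarith [b1, b2, b3, b4]
    · have b1 := rec2 (2 * (p + 1) + 2) p
      have b2 := hpos (2 * (p + 1) + 2) (by omega) p
      have b3 := hpos (2 * (p + 1) + 2) (by omega) (p + 2)
      have b4 := hpos (2 * (p + 1) + 3) (by omega) (p + 1)
      have hp : (0 : ℚ) ≤ p := by positivity
      push_cast at b1 ⊢
      have e1 : 2 * (p + 1) + 2 + 2 = 2 * (p + 1) + 4 := rfl
      have e2 : 2 * (p + 1) + 2 + 1 = 2 * (p + 1) + 3 := rfl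
      have e3 : p + 1 + 1 = p + 2 := rfl
      rw [e1, e2] at b1
      rw [e3]
      nlinarith [mul_nonneg hp b2, mul_nonneg hp b3, mul_nonneg hp b4,
        mul_nonneg (mul_nonneg hp hp) b3, mul_nonneg (mul_nonneg hp hp) b2]
  push_cast at b
  have key : ((m : ℚ) + 2) * c (2 * m + 4) (m + 2) ≤ 4 * c (2 * m + 4) (m + 1) := by
    have h1 : ((m : ℚ) + 2) * (((m : ℚ) + 2) * c (2 * m + 4) (m + 2)) ≤
        ((m : ℚ) + 2) * (4 * c (2 * m + 4) (m + 1)) := by
      nlinarith [mul_nonneg hm a1, mul_nonneg hm a2, mul_nonneg hm a3, mul_nonneg (mul_nonneg hm hm) a1]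
    exact le_of_mul_le_mul_left h1 (by positivity)
  linarith

/-- nonnegativity and vanishing of the gamma coefficients -/
theorem main (n : ℕ) : ∀ k, 0 ≤ c n k ∧ (n < 2 * k → c n k = 0) := by
  induction n using Nat.strong_induction_on with
  | _ n ih =>
    rcases n with _ | _ | n
    · intro k
      rw [c_zero]
      split_ifs with h
      · exact ⟨zero_le_one, fun h' => by omega⟩
      · exact ⟨le_refl _, fun _ => rfl⟩
    · intro k
      rw [zero_add, c_one]
      split_ifs with h
      · exact ⟨zero_le_one, fun h' => by omega⟩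
      · exact ⟨le_refl _, fun _ => rfl⟩
    · intro k
      have hn : (0 : ℚ) ≤ n := by positivity
      have hn2 : (0 : ℚ) < n + 2 := by positivity
      have e : n + 1 + 1 = n + 2 := rfl
      rw [e]
      have P1 : ∀ k, 0 ≤ c (n + 1) k := fun k => (ih (n + 1) (by omega) k).1
      have P0 : ∀ k, 0 ≤ c n k := fun k => (ih n (by omega) k).1
      have Z1 : ∀ k, n + 1 < 2 * k → c (n + 1) k = 0 := fun k => (ih (n + 1) (by omega) k).2
      have Z0 : ∀ k, n < 2 * k → c n k = 0 := fun k => (ih n (by omega) k).2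
      suffices h : 0 ≤ ((n : ℚ) + 2) * c (n + 2) k ∧
          (n + 2 < 2 * k → ((n : ℚ) + 2) * c (n + 2) k = 0) by
        refine ⟨?_, fun hk => ?_⟩
        · exact nonneg_of_mul_nonneg_right h.1 hn2
        · rcases mul_eq_zero.1 (h.2 hk) with h' | h'
          · exact absurd h' hn2.ne'
          · exact h'
      rcases k with _ | _ | k
      · rw [rec0]
        exact ⟨by have := P1 0; have := P0 0; positivity, fun h => by omega⟩
      · rw [zero_add, rec1]
        exact ⟨by
          have := P1 0; have := P1 1; have := P0 0; have := P0 1; positivity, fun h => by omega⟩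
      · have e2 : k + 1 + 1 = k + 2 := rfl
        rw [e2, rec2]
        rcases Nat.lt_trichotomy n (2 * k + 2) with hlt | heq | hgt
        · -- vanishing
          have h0 : ((2 * k + 5 : ℚ)) * c (n + 1) (k + 2) + 4 * (n - 1 - 2 * k) * c (n + 1) (k + 1) +
              ((2 * k + 5) ^ 2 + 2 * n + 1) / 2 * c n (k + 2) +
              4 * ((2 * k + 3) * (n + 2) - 4 * (k + 2) ^ 2 + (k + 2) + 1) * c n (k + 1) +
              8 * (n - 1 - 2 * k) * (n - 2 * k) * c n k = 0 := by
            rw [Z1 (k + 2) (by omega), Z0 (k + 2) (by omega), Z0 (k + 1) (by omega)]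
            rcases Nat.lt_trichotomy n (2 * k) with h1 | h1 | h1
            · rw [Z1 (k + 1) (by omega), Z0 k h1]; ring
            · rw [Z1 (k + 1) (by omega), h1]; push_cast; ring
            · have h2 : n = 2 * k + 1 := by omega
              rw [h2]; push_cast; ring
          exact ⟨h0.ge, fun _ => h0⟩
        · subst heq
          refine ⟨?_, fun h => by omega⟩
          rw [Z1 (k + 2) (by omega), Z0 (k + 2) (by omega)]
          have hk : (0 : ℚ) ≤ k := by positivity
          have key : ((k : ℚ) + 1) * c (2 * k + 2) (k + 1) ≤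
              c (2 * k + 3) (k + 1) + 4 * c (2 * k + 2) k := by
            rcases k with _ | m
            · have b1 := rec1 0
              have b2 := rec0 0
              have b3 := P1 1
              have b4 := P0 0
              simp only [c_one, c_zero, zero_add] at b1 b2
              norm_num at b1 b2 b3 b4 ⊢
              nlinarith
            · have e3 : 2 * (m + 1) + 2 = 2 * m + 4 := by ring
              have e4 : 2 * (m + 1) + 3 = 2 * m + 5 := by ring
              have e5 : m + 1 + 1 = m + 2 := rfl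
              have := critical m (fun n' hn' k => (ih n' (by omega) k).1)
                (fun n' hn' k => (ih n' (by omega) k).2) (ih (2 * m + 5) (by omega) (m + 2)).1
              rw [e3, e4, e5]
              push_cast
              linarith
          have e6 : 2 * k + 2 + 1 = 2 * k + 3 := rfl
          rw [e6]
          push_cast
          nlinarith [key]
        · refine ⟨?_, fun h => by omega⟩
          have hk : (0 : ℚ) ≤ k := by positivity
          have hnk : (2 * (k : ℚ) + 3) ≤ n := by exact_mod_cast hgt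
          have q1 := P1 (k + 2)
          have q2 := P1 (k + 1)
          have q3 := P0 (k + 2)
          have q4 := P0 (k + 1)
          have q5 := P0 k
          have r1 : (0 : ℚ) ≤ n - 1 - 2 * k := by linarith
          have r2 : (0 : ℚ) ≤ n - 2 * k := by linarith
          have r3 : (0 : ℚ) ≤ (2 * k + 3) * (n + 2) - 4 * (k + 2) ^ 2 + (k + 2) + 1 := by
            nlinarith
          positivity

end Pool.Agent.Q252.GamB
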