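import Pool.Agent.Q252.GamB.Rec

/-!
The generating series of a solution of the recurrence
`(n+2) a(n+2,k) = (2k+1) a(n+1,k) + (n+1+2k+2k²) a(n,k)`, `a(0,k) = 1`, `a(1,k) = 2k+1`.
-/

set_option autoImplicit false

namespace Pool.Agent.Q252.GamB

open PowerSeries

/-- `1 + X` -/
noncomputable def S : ℚ⟦X⟧ := 1 + X

theorem S_def : S = 1 + X := rfl

/-- `X / (1+X)^2` -/
noncomputable def Y : ℚ⟦X⟧ := X * (1 + X : ℚ⟦X⟧)⁻¹ ^ 2

theorem S_inv : S * (1 + X : ℚ⟦X⟧)⁻¹ = 1 := PowerSeries.mul_inv_cancel (1 + X : ℚ⟦X⟧) (by simp)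

theorem S_ne : S ≠ 0 := fun h => by
  have := S_inv
  rw [h, zero_mul] at this
  exact zero_ne_one this

theorem Y_S : Y * S ^ 2 = X := by
  have h := S_inv
  have : Y * S ^ 2 = X * (S * (1 + X : ℚ⟦X⟧)⁻¹) ^ 2 := by
    rw [Y]; ring
  rw [this, h, one_pow, mul_one]

theorem dS : d⁄dX ℚ S = 1 := by
  rw [S_def, map_add, derivative_X, derivative_one, zero_add]

theorem dY : d⁄dX ℚ Y * S ^ 3 = 1 - X := by
  have h := congrArg (d⁄dX ℚ) Y_S
  rw [Derivation.leibniz, derivative_X, derivative_pow, dS] at h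
  simp only [smul_eq_mul, Nat.cast_ofNat] at h
  have h2 := Y_S
  have h3 : (2 - 1 : ℕ) = 1 := rfl
  rw [h3, pow_one, mul_one] at h
  have h4 : d⁄dX ℚ Y * S ^ 3 = S * (Y * (2 * S) + S ^ 2 * d⁄dX ℚ Y) - 2 * (Y * S ^ 2) := by ring
  rw [h4, h, h2, S_def]
  ring

theorem lemD (m : ℕ) (A F : ℚ⟦X⟧) (h : (1 - X) ^ (m + 1) * A = F) :
    (1 - X) ^ (m + 2) * (2 * X * d⁄dX ℚ A + A) =
      2 * X * (1 - X) * d⁄dX ℚ F + (1 + (2 * (m : ℚ⟦X⟧) + 1) * X) * F := by
  have h1 := congrArg (d⁄dX ℚ) h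
  rw [Derivation.leibniz, derivative_pow] at h1
  have h2 : d⁄dX ℚ (1 - X : ℚ⟦X⟧) = -1 := by
    rw [map_sub, derivative_X, derivative_one, zero_sub]
  rw [h2] at h1
  simp only [smul_eq_mul, Nat.add_sub_cancel] at h1
  rw [← h1, ← h]
  push_cast
  ring

theorem lemD2 (m : ℕ) (g : Polynomial ℚ) (F : ℚ⟦X⟧) (h : F = S ^ m * Polynomial.aeval Y g) :
    2 * X * (1 - X) * d⁄dX ℚ F + (1 + (2 * (m : ℚ⟦X⟧) + 1) * X) * F =
      S ^ (m + 1) * Polynomial.aeval Y (E m g) := by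
  have hS := S_ne
  have h1 : S * d⁄dX ℚ F = m * S ^ m * Polynomial.aeval Y g +
      S ^ (m + 1) * (Polynomial.aeval Y (Polynomial.derivative g) * d⁄dX ℚ Y) := by
    rw [h, Derivation.leibniz, derivative_pow, Derivation.comp_aeval_eq]
    rw [dS]
    simp only [smul_eq_mul]
    rcases m with _ | m
    · simp
    · simp only [Nat.add_sub_cancel]
      push_cast
      ring
  have h2 : Polynomial.aeval Y (E m g) = (1 + 4 * m * Y) * Polynomial.aeval Y g +
      2 * Y * (1 - 4 * Y) * Polynomial.aeval Y (Polynomial.derivative g) := by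
    unfold E
    simp only [map_add, map_sub, map_mul, map_one, Polynomial.aeval_X, Polynomial.aeval_C]
    have e1 : algebraMap ℚ ℚ⟦X⟧ 2 = 2 := map_ofNat _ 2
    have e2 : algebraMap ℚ ℚ⟦X⟧ 8 = 8 := map_ofNat _ 8
    have e3 : algebraMap ℚ ℚ⟦X⟧ 4 = 4 := map_ofNat _ 4
    have e4 : algebraMap ℚ ℚ⟦X⟧ (m : ℚ) = m := map_natCast _ m
    rw [e1, e2, e3, e4]
    ring
  apply mul_left_cancel₀ (pow_ne_zero 3 hS)
  have h3 := dY
  have h4 := Y_S
  have h5 : S ^ 3 * (2 * X * (1 - X) * d⁄dX ℚ F + (1 + (2 * (m : ℚ⟦X⟧) + 1) * X) * F) =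
      S ^ 2 * (2 * X * (1 - X)) * (S * d⁄dX ℚ F) + S ^ 3 * (1 + (2 * (m : ℚ⟦X⟧) + 1) * X) * F := by
    ring
  rw [h5, h1, h2, h]
  have h6 : S ^ 3 * (S ^ (m + 1) * ((1 + 4 * m * Y) * Polynomial.aeval Y g +
      2 * Y * (1 - 4 * Y) * Polynomial.aeval Y (Polynomial.derivative g))) =
      S ^ (m + 2) * (S ^ 2 + 4 * m * (Y * S ^ 2)) * Polynomial.aeval Y g +
      S ^ m * 2 * (Y * S ^ 2) * (S ^ 2 - 4 * (Y * S ^ 2)) *
        Polynomial.aeval Y (Polynomial.derivative g) := by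
    ring
  have h7 : S ^ 2 * (2 * X * (1 - X)) * ((m : ℚ⟦X⟧) * S ^ m * Polynomial.aeval Y g +
      S ^ (m + 1) * (Polynomial.aeval Y (Polynomial.derivative g) * d⁄dX ℚ Y)) =
      S ^ 2 * (2 * X * (1 - X)) * ((m : ℚ⟦X⟧) * S ^ m) * Polynomial.aeval Y g +
      S ^ m * (2 * X * (1 - X)) * Polynomial.aeval Y (Polynomial.derivative g) *
        (d⁄dX ℚ Y * S ^ 3) := by
    ring
  rw [h6, h7, h3, h4, S_def]
  ring

theorem aevalG (r q : ℚ) (g1 g2 g0 : Polynomial ℚ) :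
    Polynomial.aeval Y (Polynomial.C r * (g1 + Polynomial.C (1 / 2) *
      (g2 + Polynomial.C q * ((1 - Polynomial.C 4 * Polynomial.X) * g0)))) =
    C r * (Polynomial.aeval Y g1 + C (1 / 2) * (Polynomial.aeval Y g2 +
      C q * ((1 - 4 * Y) * Polynomial.aeval Y g0))) := by
  have h : ∀ r : ℚ, (algebraMap ℚ ℚ⟦X⟧) r = C r := fun r => rfl
  have e6 : (C 4 : ℚ⟦X⟧) = 4 := map_ofNat _ 4
  simp only [map_mul, map_add, map_sub, map_one, Polynomial.aeval_C, Polynomial.aeval_X, h, e6]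

/-- The generating series in terms of the gamma polynomials. -/
theorem series (a : ℕ → ℕ → ℚ) (h0 : ∀ k, a 0 k = 1) (h1 : ∀ k : ℕ, a 1 k = 2 * k + 1)
    (h2 : ∀ n k : ℕ, ((n : ℚ) + 2) * a (n + 2) k =
      (2 * k + 1) * a (n + 1) k + (n + 1 + 2 * k + 2 * k ^ 2) * a n k) (n : ℕ) :
    (1 - X) ^ (n + 1) * PowerSeries.mk (a n) = S ^ n * Polynomial.aeval Y (G n) := by
  induction n using Nat.strong_induction_on with
  | _ n ih =>
    rcases n with _ | _ | n
    · have h := mk_add_choose_mul_one_sub_pow_eq_one (S := ℚ) (d := 0)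
      have e : (PowerSeries.mk (a 0) : ℚ⟦X⟧) = PowerSeries.mk fun n => ((0 + n).choose 0 : ℚ) := by
        ext k; simp [h0]
      rw [e, mul_comm, G, map_one, pow_zero, mul_one]
      exact h
    · have ha := mk_add_choose_mul_one_sub_pow_eq_one (S := ℚ) (d := 1)
      have e : (PowerSeries.mk (a 1) : ℚ⟦X⟧) =
          (1 + X) * PowerSeries.mk fun n => ((1 + n).choose 1 : ℚ) := by
        ext k
        rw [coeff_mk, h1, add_mul, one_mul, map_add, coeff_mk]
        rcases k with _ | k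
        · simp
        · rw [coeff_succ_X_mul, coeff_mk]
          simp only [Nat.choose_one_right]; push_cast; ring
      rw [zero_add, e, G, map_one, mul_one, pow_one, mul_comm, mul_assoc]
      have e2 : (1 : ℕ) + 1 = 2 := rfl
      rw [e2] at ha ⊢
      rw [ha, mul_one, S_def]
    · have i1 := ih (n + 1) (by omega)
      have i0 := ih n (by omega)
      have d1 := lemD (n + 1) _ _ i1
      rw [lemD2 (n + 1) (G (n + 1)) _ rfl] at d1
      have d0 := lemD n _ _ i0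
      rw [lemD2 n (G n) _ rfl] at d0
      have d00 := lemD (n + 1) _ _ d0
      rw [lemD2 (n + 1) (E n (G n)) _ rfl] at d00
      have hrec : C ((n : ℚ) + 2) * PowerSeries.mk (a (n + 2)) =
          (2 * X * d⁄dX ℚ (PowerSeries.mk (a (n + 1))) + PowerSeries.mk (a (n + 1))) +
          C (1 / 2) * ((2 * X * d⁄dX ℚ (2 * X * d⁄dX ℚ (PowerSeries.mk (a n)) + PowerSeries.mk (a n)) +
            (2 * X * d⁄dX ℚ (PowerSeries.mk (a n)) + PowerSeries.mk (a n))) +
            C (2 * (n : ℚ) + 1) * PowerSeries.mk (a n)) := by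
        have hT : ∀ (B : ℚ⟦X⟧) (k : ℕ), coeff k (2 * X * d⁄dX ℚ B + B) = (2 * k + 1) * coeff k B := by
          intro B k
          have e : (2 : ℚ⟦X⟧) = C 2 := (map_ofNat _ 2).symm
          rw [map_add, e, mul_assoc, coeff_C_mul]
          rcases k with _ | k
          · simp
          · rw [coeff_succ_X_mul, coeff_derivative]; push_cast; ring
        ext k
        rw [coeff_C_mul, coeff_mk, h2, map_add, hT, coeff_mk, coeff_C_mul, map_add, hT, hT,
          coeff_C_mul, coeff_mk]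
        ring
      have hn : (C ((n : ℚ) + 2) : ℚ⟦X⟧) ≠ 0 := by
        intro h
        have := congrArg (coeff 0) h
        simp at this
        have : (0 : ℚ) < (n : ℚ) + 2 := by positivity
        linarith
      apply mul_left_cancel₀ hn
      have e1 : C ((n : ℚ) + 2) * ((1 - X) ^ (n + 1 + 1 + 1) * PowerSeries.mk (a (n + 1 + 1))) =
          (1 - X) ^ (n + 3) * (C ((n : ℚ) + 2) * PowerSeries.mk (a (n + 2))) := by ring
      rw [e1, hrec]
      have e2 : G (n + 1 + 1) = G (n + 2) := rfl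
      rw [e2, G_succ, aevalG]
      have e3 : (C ((n : ℚ) + 2) : ℚ⟦X⟧) * C (1 / ((n : ℚ) + 2)) = 1 := by
        rw [← map_mul, mul_one_div_cancel (by positivity), map_one]
      have e7 : (1 - X : ℚ⟦X⟧) ^ 2 = S ^ 2 * (1 - 4 * Y) := by
        have : S ^ 2 * (1 - 4 * Y) = S ^ 2 - 4 * (Y * S ^ 2) := by ring
        rw [this, Y_S, S_def]; ring
      have e8 : (1 - X : ℚ⟦X⟧) ^ (n + 3) * PowerSeries.mk (a n) =
          (1 - X) ^ 2 * ((1 - X) ^ (n + 1) * PowerSeries.mk (a n)) := by ring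
      have e9 : (1 - X : ℚ⟦X⟧) ^ (n + 3) * (2 * X * d⁄dX ℚ (PowerSeries.mk (a (n + 1))) +
          PowerSeries.mk (a (n + 1)) +
          C (1 / 2) * ((2 * X * d⁄dX ℚ (2 * X * d⁄dX ℚ (PowerSeries.mk (a n)) + PowerSeries.mk (a n)) +
            (2 * X * d⁄dX ℚ (PowerSeries.mk (a n)) + PowerSeries.mk (a n))) +
            C (2 * (n : ℚ) + 1) * PowerSeries.mk (a n))) =
          (1 - X) ^ (n + 1 + 2) * (2 * X * d⁄dX ℚ (PowerSeries.mk (a (n + 1))) +
          PowerSeries.mk (a (n + 1))) +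
          C (1 / 2) * ((1 - X) ^ (n + 1 + 2) * (2 * X * d⁄dX ℚ (2 * X * d⁄dX ℚ (PowerSeries.mk (a n)) +
            PowerSeries.mk (a n)) +
            (2 * X * d⁄dX ℚ (PowerSeries.mk (a n)) + PowerSeries.mk (a n))) +
            C (2 * (n : ℚ) + 1) * ((1 - X) ^ (n + 3) * PowerSeries.mk (a n))) := by ring
      rw [e9, d1, d00, e8, i0, e7]
      linear_combination (-(S ^ (n + 2) * (Polynomial.aeval Y (E (n + 1) (G (n + 1))) + C (1 / 2) *
            (Polynomial.aeval Y (E (n + 1) (E n (G n))) + C (2 * (n : ℚ) + 1) *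
              ((1 - 4 * Y) * Polynomial.aeval Y (G n)))))) * e3

end Pool.Agent.Q252.GamB
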