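import Pool.Agent.Q252.GamB.Inj

/-!
Every labelling comes from a pair.
-/

set_option autoImplicit false

namespace Pool.Agent.Q252.GamB

open Finset

/-- the counts from the labels -/
noncomputable def M (l : (ℤ × ℤ) →₀ ℕ) (c : ℤ × ℤ) : ℕ :=
  if |c.2| ≤ c.1 then l c / wt c else
    if (0 ≤ c.1 ∧ 0 ≤ c.2) ∨ (0 < c.1 ∧ c.2 < 0) then l (pt c) / wt (pt c) else 0

theorem pt_fst {c : ℤ × ℤ} : (pt c).1 = |c.2| := by
  unfold pt
  split_ifs with h
  · exact (abs_of_nonneg h).symm
  · exact (abs_of_neg (by omega)).symm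

theorem pt_snd {c : ℤ × ℤ} (h : dom c) : |(pt c).2| = c.1 := by
  unfold pt
  rcases h with ⟨h1, h2⟩ | ⟨h1, h2⟩
  · rw [if_pos h2]
    exact abs_of_nonneg h1
  · rw [if_neg (by omega)]
    simp only [abs_neg]
    exact abs_of_pos h1

theorem pt_diag {c : ℤ × ℤ} (h : |c.2| = c.1) : pt c = c := by
  obtain ⟨a, b⟩ := c
  simp only at h
  subst h
  unfold pt
  simp only
  split_ifs with h1
  · rw [abs_of_nonneg h1]
  · rw [abs_of_neg (by omega)]; simp

variable {k n : ℕ} {l : (ℤ × ℤ) →₀ ℕ}

theorem M_ne (hl : l ∈ Lab k n) {c : ℤ × ℤ} (h : M l c ≠ 0) : dom c ∧ c.1 ≤ k ∧ |c.2| ≤ k := by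
  unfold Lab at hl
  rw [mem_filter, mem_finsuppAntidiag] at hl
  unfold M at h
  split_ifs at h with h1 h2
  · have h3 : l c ≠ 0 := fun h4 => h (by rw [h4]; exact Nat.zero_div _)
    have h4 := hl.1.2 (Finsupp.mem_support_iff.2 h3)
    refine ⟨dom_cells h4, (mem_cells.1 h4).1, ?_⟩
    have := mem_cells.1 h4
    omega
  · have h3 : l (pt c) ≠ 0 := fun h4 => h (by rw [h4]; exact Nat.zero_div _)
    have h4 := mem_cells.1 (hl.1.2 (Finsupp.mem_support_iff.2 h3))
    rw [pt_fst, pt_snd h2] at h4
    exact ⟨h2, by omega, h4.1⟩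
  · exact absurd rfl h

theorem M_pt (c : ℤ × ℤ) (hd : dom c) : M l (pt c) = M l c := by
  rcases lt_trichotomy |c.2| c.1 with h | h | h
  · unfold M
    rw [if_neg (by rw [pt_fst, pt_snd hd]; omega),
      if_pos (show (0 ≤ (pt c).1 ∧ 0 ≤ (pt c).2) ∨ (0 < (pt c).1 ∧ (pt c).2 < 0) from dom_pt hd),
      if_pos h.le, pt_pt hd]
  · rw [pt_diag h]
  · unfold M
    rw [if_pos (by rw [pt_fst, pt_snd hd]; omega), if_neg (by omega),
      if_pos (show (0 ≤ c.1 ∧ 0 ≤ c.2) ∨ (0 < c.1 ∧ c.2 < 0) from hd)]

theorem wt_M (hl : l ∈ Lab k n) {c : ℤ × ℤ} (hc : c ∈ cells k) : wt c * M l c = l c := by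
  unfold Lab at hl
  rw [mem_filter] at hl
  unfold M
  rw [if_pos (mem_cells.1 hc).2]
  exact Nat.mul_div_cancel' (hl.2 c hc)

instance : DecidablePred dom := fun c => by unfold dom; infer_instance

/-- the box -/
noncomputable def box (k : ℕ) : Finset (ℤ × ℤ) :=
  ((Icc (0 : ℤ) k) ×ˢ (Icc (-(k : ℤ)) k)).filter dom

theorem mem_box {c : ℤ × ℤ} : c ∈ box k ↔ dom c ∧ c.1 ≤ k ∧ |c.2| ≤ k := by
  unfold box
  rw [mem_filter, mem_product, mem_Icc, mem_Icc, abs_le]
  constructor
  · rintro ⟨⟨h1, h2⟩, h3⟩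
    exact ⟨h3, h1.2, h2⟩
  · rintro ⟨h1, h2, h3⟩
    refine ⟨⟨⟨?_, h2⟩, h3⟩, h1⟩
    rcases h1 with h | h <;> omega

theorem pt_box {c : ℤ × ℤ} (h : c ∈ box k) : pt c ∈ box k := by
  rw [mem_box] at h ⊢
  rw [pt_fst, pt_snd h.1]
  exact ⟨dom_pt h.1, h.2.2, h.2.1⟩

theorem cells_box {c : ℤ × ℤ} (h : c ∈ cells k) : c ∈ box k := by
  rw [mem_box]
  have := mem_cells.1 h
  exact ⟨dom_cells h, this.1, by omega⟩

theorem sum_M (hl : l ∈ Lab k n) : ∑ c ∈ box k, M l c = n := by
  set u : ℤ × ℤ → ℕ := fun c => if c ∈ cells k then l c else 0 with hu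
  have h1 : ∀ c ∈ box k, u c + u (pt c) = 2 * M l c := by
    intro c hc
    rw [mem_box] at hc
    obtain ⟨hd, h2, h3⟩ := hc
    simp only [hu]
    rcases lt_trichotomy |c.2| c.1 with h | h | h
    · have e1 : c ∈ cells k := mem_cells.2 ⟨h2, h.le⟩
      have e2 : pt c ∉ cells k := by
        rw [mem_cells, pt_fst, pt_snd hd]; omega
      rw [if_pos e1, if_neg e2, ← wt_M hl e1]
      have : wt c = 2 := by unfold wt; rw [if_neg (by omega)]
      rw [this, add_zero]
    · have e1 : c ∈ cells k := mem_cells.2 ⟨h2, h.le⟩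
      rw [pt_diag h, if_pos e1, ← wt_M hl e1]
      have : wt c = 1 := by unfold wt; rw [if_pos h]
      rw [this]; ring
    · have e1 : c ∉ cells k := by rw [mem_cells]; omega
      have e2 : pt c ∈ cells k := by
        rw [mem_cells, pt_fst, pt_snd hd]; omega
      rw [if_neg e1, if_pos e2, ← wt_M hl e2, M_pt c hd]
      have : wt (pt c) = 2 := by
        unfold wt; rw [if_neg]; rw [pt_fst, pt_snd hd]; omega
      rw [this]; ring
  have h2 : ∑ c ∈ box k, u (pt c) = ∑ c ∈ box k, u c := by
    apply sum_bij (fun c _ => pt c)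
    · intro c hc; exact pt_box hc
    · intro a ha b hb hab
      have := congrArg pt hab
      rwa [pt_pt (mem_box.1 ha).1, pt_pt (mem_box.1 hb).1] at this
    · intro b hb
      exact ⟨pt b, pt_box hb, pt_pt (mem_box.1 hb).1⟩
    · intro a _; rfl
  have h3 : ∑ c ∈ box k, u c = n := by
    simp only [hu]
    rw [← sum_filter]
    have : (box k).filter (fun c => c ∈ cells k) = cells k := by
      ext c
      rw [mem_filter]
      exact ⟨fun h => h.2, fun h => ⟨cells_box h, h⟩⟩
    rw [this]
    unfold Lab at hl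
    rw [mem_filter, mem_finsuppAntidiag] at hl
    exact hl.1.1
  have h4 := sum_congr rfl h1
  rw [sum_add_distrib, h2, h3, ← mul_sum] at h4
  omega

/-- the sorted set of triples -/
noncomputable def Om (k : ℕ) (l : (ℤ × ℤ) →₀ ℕ) : Finset Tri :=
  ((box k).sigma fun c => range (M l c)).image (fun x => tri x.1.1 x.1.2 x.2)

theorem card_Om (hl : l ∈ Lab k n) : #(Om k l) = n := by
  unfold Om
  rw [card_image_of_injective, card_sigma]
  · simp only [card_range]
    exact sum_M hl
  · rintro ⟨⟨a, b⟩, s⟩ ⟨⟨a', b'⟩, s'⟩ h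
    simp only at h
    rw [tri_inj] at h
    obtain ⟨rfl, rfl, rfl⟩ := h
    rfl

theorem mem_Om (hl : l ∈ Lab k n) (a b : ℤ) (s : ℕ) : tri a b s ∈ Om k l ↔ s < M l (a, b) := by
  unfold Om
  rw [mem_image]
  constructor
  · rintro ⟨⟨⟨a', b'⟩, s'⟩, h1, h2⟩
    simp only at h2
    rw [tri_inj] at h2
    obtain ⟨rfl, rfl, rfl⟩ := h2
    rw [mem_sigma, mem_range] at h1
    exact h1.2
  · intro h
    refine ⟨⟨(a, b), s⟩, ?_, rfl⟩
    rw [mem_sigma, mem_range]
    exact ⟨mem_box.2 (M_ne (c := (a, b)) hl (by omega)), h⟩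

set_option maxHeartbeats 4000000 in
theorem surj (hl : l ∈ Lab k n) : ∃ (w : SP n) (f : Fin n → ℕ), Good k w f ∧ lab k w f = l := by
  set e := (Om k l).orderEmbOfFin (card_Om hl) with he
  set A : Fin n → ℤ := fun i => (ofLex (e i)).1 with hA
  set B : Fin n → ℤ := fun i => (ofLex (ofLex (e i)).2).1 with hB
  set Z : Fin n → ℕ := fun i => (ofLex (ofLex (e i)).2).2 with hZ
  have hE : ∀ i, e i = tri (A i) (B i) (Z i) := fun i => rfl
  have hmem : ∀ i, Z i < M l (A i, B i) := by
    intro i
    rw [← mem_Om hl, ← hE]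
    exact orderEmbOfFin_mem _ _ i
  have hd : ∀ i, dom (A i, B i) ∧ A i ≤ k ∧ |B i| ≤ k := fun i => M_ne hl (by have := hmem i; omega)
  have hex : ∀ a b s, s < M l (a, b) → ∃ i, A i = a ∧ B i = b ∧ Z i = s := by
    intro a b s h
    rw [← mem_Om hl] at h
    have h1 : tri a b s ∈ Set.range e := by
      rw [he, range_orderEmbOfFin]; exact h
    obtain ⟨i, hi⟩ := h1
    rw [hE, tri_inj] at hi
    exact ⟨i, hi⟩
  -- the partner position
  have hp : ∀ i, ∃ j, A j = |B i| ∧ (B j = if 0 ≤ B i then A i else -A i) ∧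
      Z j = if 0 ≤ B i then Z i else M l (A i, B i) - 1 - Z i := by
    intro i
    apply hex
    have h1 := M_pt (l := l) (A i, B i) (hd i).1
    have h2 : pt (A i, B i) = (|B i|, if 0 ≤ B i then A i else -A i) := by
      unfold pt
      simp only
      split_ifs with h
      · rw [abs_of_nonneg h]
      · rw [abs_of_neg (by omega)]
    rw [h2] at h1
    rw [h1]
    have := hmem i
    split_ifs <;> omega
  choose sg hs1 hs2 hs3 using hp
  have einj : ∀ i j, A i = A j → B i = B j → Z i = Z j → i = j := by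
    intro i j h1 h2 h3
    apply e.injective
    rw [hE, hE, h1, h2, h3]
  have hinv : Function.Involutive sg := by
    intro i
    have hdi := (hd i).1
    have h0 := hmem i
    by_cases hb : 0 ≤ B i
    · have ha : 0 ≤ A i := by rcases hdi with h | h <;> simp only at h <;> omega
      have h2 : B (sg i) = A i := by rw [hs2, if_pos hb]
      apply einj
      · rw [hs1, h2, abs_of_nonneg ha]
      · rw [hs2, h2, if_pos ha, hs1, abs_of_nonneg hb]
      · rw [hs3, h2, if_pos ha, hs3, if_pos hb]
    · have ha : 0 < A i := by rcases hdi with h | h <;> simp only at h <;> omega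
      have h2 : B (sg i) = -A i := by rw [hs2, if_neg hb]
      have h3 : A (sg i) = -B i := by rw [hs1, abs_of_neg (by omega)]
      have h4 : pt (A i, B i) = (-B i, -A i) := by unfold pt; simp only; rw [if_neg hb]
      have h5 := M_pt (l := l) (A i, B i) hdi
      rw [h4] at h5
      apply einj
      · rw [hs1, h2, abs_neg, abs_of_pos ha]
      · rw [hs2, h2, if_neg (by omega), h3]; ring
      · rw [hs3, h2, if_neg (by omega), h3, h5, hs3, if_neg hb]; omega
  set w : SP n := (hinv.toPerm, fun i => decide (B i < 0)) with hw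
  set f : Fin n → ℕ := fun i => (A i).toNat with hf
  have hA0 : ∀ i, 0 ≤ A i := by
    intro i
    rcases (hd i).1 with h | h <;> simp only at h <;> omega
  have hfA : ∀ i, (f i : ℤ) = A i := fun i => Int.toNat_of_nonneg (hA0 i)
  have hw1 : ∀ i, w.1 i = sg i := fun i => rfl
  have hw2 : ∀ i, w.2 i = true ↔ B i < 0 := fun i => decide_eq_true_iff
  have hlt : ∀ i j, i < j → A i = A j → B i < B j ∨ B i = B j ∧ Z i < Z j := by
    intro i j hij h
    have h1 : e i < e j := e.strictMono hij
    rw [hE, hE, tri_lt] at h1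
    rcases h1 with h1 | h1
    · omega
    · exact h1.2
  have hlt' : ∀ i j, A i < A j ∨ A i = A j ∧ (B i < B j ∨ B i = B j ∧ Z i < Z j) → i < j := by
    intro i j h
    rw [← tri_lt, ← hE, ← hE] at h
    exact e.lt_iff_lt.1 h
  have hB2 : ∀ i, B (sg i) < 0 ↔ B i < 0 := by
    intro i
    have hdi := (hd i).1
    rw [hs2]
    split_ifs with h
    · rcases hdi with h1 | h1 <;> simp only at h1 <;> omega
    · rcases hdi with h1 | h1 <;> simp only at h1 <;> omega
  have good : Good k w f := by
    refine ⟨fun i => ⟨hinv i, ?_⟩, fun i => ?_, fun i j hij => ?_, fun i j hij hfij => ?_,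
      fun i hi => ?_⟩
    · rw [Bool.eq_iff_iff, hw2, hw2, hw1]
      exact hB2 i
    · have := (hd i).2.1
      have := hfA i
      omega
    · rcases lt_or_eq_of_le hij with h | h
      · have h1 : e i < e j := e.strictMono h
        rw [hE, hE, tri_lt] at h1
        have := hfA i
        have := hfA j
        rcases h1 with h1 | h1
        · omega
        · omega
      · rw [h]
    · have hAij : A i = A j := by rw [← hfA, ← hfA, hfij]
      have h1 := hlt i j hij hAij
      rcases hi : w.2 i with _ | _ <;> rcases hj : w.2 j with _ | _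
      · -- both nonnegative
        have bi : 0 ≤ B i := by
          by_contra h; rw [(hw2 i).2 (by omega)] at hi; exact Bool.noConfusion hi
        have bj : 0 ≤ B j := by
          by_contra h; rw [(hw2 j).2 (by omega)] at hj; exact Bool.noConfusion hj
        rw [W_pos hi, W_pos hj, hw1, hw1]
        have : sg i < sg j := by
          apply hlt'
          rw [hs1, hs1, hs2, hs2, hs3, hs3, if_pos bi, if_pos bj, if_pos bi, if_pos bj,
            abs_of_nonneg bi, abs_of_nonneg bj]
          rcases h1 with h1 | h1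
          · left; exact h1
          · right; exact ⟨h1.1, Or.inr ⟨hAij, h1.2⟩⟩
        have : (sg i : ℕ) < sg j := this
        omega
      · exfalso
        have bi : 0 ≤ B i := by
          by_contra h; rw [(hw2 i).2 (by omega)] at hi; exact Bool.noConfusion hi
        have bj := (hw2 j).1 hj
        omega
      · rw [W_neg hi, W_pos hj]
        omega
      · have bi := (hw2 i).1 hi
        have bj := (hw2 j).1 hj
        rw [W_neg hi, W_neg hj, hw1, hw1]
        have : sg j < sg i := by
          apply hlt'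
          rw [hs1, hs1, hs2, hs2, hs3, hs3, if_neg (by omega), if_neg (by omega),
            if_neg (by omega), if_neg (by omega), abs_of_neg bi, abs_of_neg bj]
          rcases h1 with h1 | h1
          · left; omega
          · right
            refine ⟨by omega, Or.inr ⟨by omega, ?_⟩⟩
            have h2 := hmem i
            have h3 := hmem j
            rw [hAij, h1.1] at h2 ⊢
            omega
        have : (sg j : ℕ) < sg i := this
        omega
    · have h1 := (hw2 i).1 hi
      have h2 : 0 < A i := by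
        rcases (hd i).1 with h | h <;> simp only at h <;> omega
      have := hfA i
      omega
  refine ⟨w, f, good, ?_⟩
  have hv : ∀ i, v w f i = B i := by
    intro i
    rcases hi : w.2 i with _ | _
    · have bi : 0 ≤ B i := by
        by_contra h; rw [(hw2 i).2 (by omega)] at hi; exact Bool.noConfusion hi
      rw [v_pos hi, hfA, hw1, hs1, abs_of_nonneg bi]
    · have bi := (hw2 i).1 hi
      rw [v_neg hi, hfA, hw1, hs1, abs_of_neg bi, neg_neg]
  have hcl : ∀ i, cl w f i = (A i, B i) := by
    intro i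
    unfold cl
    rw [hfA, hv]
  have hN : ∀ c, N w f c = M l c := by
    rintro ⟨a, b⟩
    unfold N
    rw [← card_range (M l (a, b))]
    apply card_bij (fun i _ => Z i)
    · intro i hi
      simp only [mem_filter, mem_univ, true_and] at hi
      rw [hcl] at hi
      rw [mem_range, ← hi]
      exact hmem i
    · intro i hi j hj hij
      simp only [mem_filter, mem_univ, true_and] at hi hj
      rw [hcl] at hi hj
      have h1 := hi.trans hj.symm
      exact einj i j (Prod.mk.inj h1).1 (Prod.mk.inj h1).2 hij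
    · intro s hs
      rw [mem_range] at hs
      obtain ⟨i, h1, h2, h3⟩ := hex a b s hs
      refine ⟨i, ?_, h3⟩
      simp only [mem_filter, mem_univ, true_and]
      rw [hcl, h1, h2]
  ext c
  rw [lab_apply]
  split_ifs with hc
  · rw [hN, wt_M hl hc]
  · unfold Lab at hl
    rw [mem_filter, mem_finsuppAntidiag] at hl
    by_contra h
    exact hc (hl.1.2 (Finsupp.mem_support_iff.2 (Ne.symm h)))

end Pool.Agent.Q252.GamB
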